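import Pool.Agent.H752R3.LuzinProduct

/-!
Under CH: a set `Y` of the Cantor group with a block selection property for omega-covers, such that
every point of the Cantor group is a sum of two elements of `Y`.
-/

namespace Pool.Agent.W636.OGp

open Set Filter Topology Cardinal Pool.Agent.H752R3

/-- union of the `k`-th block of the selected clopen sets -/
def Wb (v : ℕ → ℕ → Finset (List Bool)) (s : (ℕ → ℕ) × (ℕ → ℕ)) (k : ℕ) : Set (ℕ → Bool) :=
  {x | ∃ m, s.2 k ≤ m ∧ m < s.2 (k + 1) ∧ x ∈ Clop (v m (s.1 m))}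

theorem isOpen_Wb (v : ℕ → ℕ → Finset (List Bool)) (s : (ℕ → ℕ) × (ℕ → ℕ)) (k : ℕ) :
    IsOpen (Wb v s k) := by
  have : Wb v s k = ⋃ m, ⋃ (_ : s.2 k ≤ m ∧ m < s.2 (k + 1)), Clop (v m (s.1 m)) := by
    ext x
    simp only [Wb, mem_ofPred_eq, mem_iUnion]
    constructor
    · rintro ⟨m, h1, h2, h3⟩
      exact ⟨m, ⟨h1, h2⟩, h3⟩
    · rintro ⟨m, ⟨h1, h2⟩, h3⟩
      exact ⟨m, h1, h2, h3⟩
  rw [this]
  exact isOpen_iUnion fun m => isOpen_iUnion fun _ => isOpen_Clop _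

/-- the blocks are large: for every translation `z`, every short cylinder contains a point `x` such
that `x` and `x + z` are in the union of the block -/
def BlockProp (v : ℕ → ℕ → Finset (List Bool)) (s : (ℕ → ℕ) × (ℕ → ℕ)) : Prop :=
  StrictMono s.2 ∧ s.2 0 = 0 ∧ ∀ k, ∀ z : ℕ → Bool, ∀ l : List Bool, l.length ≤ k →
    ∃ x ∈ CylB l, x ∈ Wb v s k ∧ xorB z x ∈ Wb v s k

theorem CylB_nonempty (l : List Bool) : (CylB l).Nonempty :=
  ⟨fun i => l.getD i false, fun _ _ => rfl⟩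

/-- one block -/
theorem exists_next {c : ℕ → Finset (List Bool)} {D : Set (ℕ → Bool)} (hD : Dense D)
    (hc : ∀ d ∈ D, ∀ᶠ m in atTop, d ∈ Clop (c m)) (N k : ℕ) :
    ∃ N' > N, ∀ z : ℕ → Bool, ∀ l : List Bool, l.length ≤ k →
      ∃ x ∈ CylB l, (∃ m, N ≤ m ∧ m < N' ∧ x ∈ Clop (c m)) ∧
        ∃ m, N ≤ m ∧ m < N' ∧ xorB z x ∈ Clop (c m) := by
  classical
  -- the open dense set
  let Q : Set (ℕ → Bool) := ⋃ m, ⋃ (_ : N ≤ m), Clop (c m)
  have hQo : IsOpen Q := isOpen_iUnion fun m => isOpen_iUnion fun _ => isOpen_Clop _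
  have hQd : Dense Q := by
    refine Dense.mono ?_ hD
    intro d hd
    obtain ⟨m, hm1, hm2⟩ := ((hc d hd).and (eventually_ge_atTop N)).exists
    exact mem_iUnion.2 ⟨m, mem_iUnion.2 ⟨hm2, hm1⟩⟩
  -- for one list
  have key : ∀ l : List Bool, ∃ N', ∀ z : ℕ → Bool,
      ∃ x ∈ CylB l, (∃ m, N ≤ m ∧ m < N' ∧ x ∈ Clop (c m)) ∧
        ∃ m, N ≤ m ∧ m < N' ∧ xorB z x ∈ Clop (c m) := by
    intro l
    let O : ℕ → Set (ℕ → Bool) := fun N' => {z | ∃ x ∈ CylB l,
      (∃ m, N ≤ m ∧ m < N' ∧ x ∈ Clop (c m)) ∧ ∃ m, N ≤ m ∧ m < N' ∧ xorB z x ∈ Clop (c m)}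
    have hOo : ∀ N', IsOpen (O N') := by
      intro N'
      have : O N' = ⋃ x ∈ {x | x ∈ CylB l ∧ ∃ m, N ≤ m ∧ m < N' ∧ x ∈ Clop (c m)},
          ⋃ m ∈ Ico N N', (fun z => xorB z x) ⁻¹' Clop (c m) := by
        ext z
        simp only [O, mem_ofPred_eq, mem_iUnion, mem_preimage, exists_prop, mem_Ico]
        constructor
        · rintro ⟨x, hx, h1, m, h2, h3, h4⟩
          exact ⟨x, ⟨hx, h1⟩, m, ⟨h2, h3⟩, h4⟩
        · rintro ⟨x, ⟨hx, h1⟩, m, ⟨h2, h3⟩, h4⟩
          exact ⟨x, hx, h1, m, h2, h3, h4⟩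
      rw [this]
      refine isOpen_biUnion fun x _ => isOpen_biUnion fun m _ => ?_
      exact (isOpen_Clop _).preimage (continuous_xorB.comp (Continuous.prodMk_left x))
    have hOm : Monotone O := by
      intro a b hab z
      rintro ⟨x, hx, ⟨m, h1, h2, h3⟩, m', h4, h5, h6⟩
      exact ⟨x, hx, ⟨m, h1, lt_of_lt_of_le h2 hab, h3⟩, m', h4, lt_of_lt_of_le h5 hab, h6⟩
    have hOu : (univ : Set (ℕ → Bool)) ⊆ ⋃ N', O N' := by
      intro z _
      have h1 : Dense (Q ∩ xorB z ⁻¹' Q) :=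
        hQd.inter_of_isOpen_left (hQd.preimage (xorHomeo z).isOpenMap) hQo
      obtain ⟨x, hx1, hx2, hx3⟩ := h1.inter_open_nonempty _ (isOpen_CylB l) (CylB_nonempty l)
      obtain ⟨m1, hm1⟩ := mem_iUnion.1 hx2
      obtain ⟨hm1, hm1'⟩ := mem_iUnion.1 hm1
      obtain ⟨m2, hm2⟩ := mem_iUnion.1 hx3
      obtain ⟨hm2, hm2'⟩ := mem_iUnion.1 hm2
      exact mem_iUnion.2 ⟨max m1 m2 + 1, x, hx1,
        ⟨m1, hm1, Nat.lt_succ_of_le (le_max_left _ _), hm1'⟩,
        m2, hm2, Nat.lt_succ_of_le (le_max_right _ _), hm2'⟩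
    obtain ⟨N', hN'⟩ := isCompact_univ.elim_directed_cover O hOo hOu
      (directed_of_isDirected_le hOm)
    exact ⟨N', fun z => hN' (mem_univ z)⟩
  choose g hg using key
  have hfin : {l : List Bool | l.length ≤ k}.Finite := List.finite_length_le Bool k
  obtain ⟨b, hb⟩ := (hfin.image g).bddAbove
  refine ⟨max b N + 1, by omega, ?_⟩
  intro z l hl
  obtain ⟨x, hx, ⟨m, h1, h2, h3⟩, m', h4, h5, h6⟩ := hg l z
  have h7 : g l ≤ b := hb ⟨l, hl, rfl⟩
  exact ⟨x, hx, ⟨m, h1, by omega, h3⟩, m', h4, by omega, h6⟩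

/-- selection for a countable set -/
theorem exists_sel {A D : Set (ℕ → Bool)} (hA : A.Countable) (hD : Dense D) (hDA : D ⊆ A)
    (v : ℕ → ℕ → Finset (List Bool))
    (hv : ∀ F : Set (ℕ → Bool), F.Finite → F ⊆ A → ∀ m, ∃ j, F ⊆ Clop (v m j)) :
    ∃ s : (ℕ → ℕ) × (ℕ → ℕ), BlockProp v s ∧
      ∀ F : Set (ℕ → Bool), F.Finite → F ⊆ A → ∀ᶠ k in atTop, F ⊆ Wb v s k := by
  classical
  have h2 : {F : Set (ℕ → Bool) | F.Finite ∧ F ⊆ A}.Countable :=
    Set.countable_ofPred_finite_subset hA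
  obtain ⟨G, hG⟩ := h2.exists_eq_range ⟨∅, Set.finite_empty, empty_subset _⟩
  have hGm : ∀ n, (G n).Finite ∧ G n ⊆ A := fun n => by
    have : G n ∈ {F : Set (ℕ → Bool) | F.Finite ∧ F ⊆ A} := by rw [hG]; exact ⟨n, rfl⟩
    exact this
  have h3 : ∀ m, ∃ j, (⋃ i ∈ Iic m, G i) ⊆ Clop (v m j) := fun m =>
    hv _ ((finite_Iic m).biUnion fun i _ => (hGm i).1) (iUnion₂_subset fun i _ => (hGm i).2) m
  choose f hf using h3
  have hev : ∀ F : Set (ℕ → Bool), F.Finite → F ⊆ A → ∀ᶠ m in atTop, F ⊆ Clop (v m (f m)) := by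
    intro F hF hFA
    have : F ∈ {F : Set (ℕ → Bool) | F.Finite ∧ F ⊆ A} := ⟨hF, hFA⟩
    rw [hG] at this
    obtain ⟨n, rfl⟩ := this
    filter_upwards [eventually_ge_atTop n] with m hm
    exact (Set.subset_biUnion_of_mem (u := G) (show n ∈ Iic m from hm)).trans (hf m)
  have hc : ∀ d ∈ D, ∀ᶠ m in atTop, d ∈ Clop (v m (f m)) := by
    intro d hd
    filter_upwards [hev {d} (finite_singleton d) (singleton_subset_iff.2 (hDA hd))] with m hm
    exact hm rfl
  choose nx hnx1 hnx2 using exists_next hD hc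
  let N : ℕ → ℕ := fun k => Nat.rec 0 (fun k a => nx a k) k
  have hN1 : ∀ k, N (k + 1) = nx (N k) k := fun k => rfl
  have hN : StrictMono N := strictMono_nat_of_lt_succ fun k => by
    rw [hN1]; exact hnx1 _ _
  refine ⟨(f, N), ⟨hN, rfl, ?_⟩, ?_⟩
  · intro k z l hl
    obtain ⟨x, hx, h1, h2⟩ := hnx2 (N k) k z l hl
    exact ⟨x, hx, h1, h2⟩
  · intro F hF hFA
    obtain ⟨m0, hm0⟩ := eventually_atTop.1 (hev F hF hFA)
    filter_upwards [eventually_ge_atTop m0] with k hk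
    intro x hx
    have h5 : m0 ≤ N k := hk.trans hN.le_apply
    exact ⟨N k, le_rfl, hN (Nat.lt_succ_self k), hm0 _ h5 hx⟩

/-- The block selection property. -/
def BlockSel (Y : Set (ℕ → Bool)) : Prop :=
  ∀ v : ℕ → ℕ → Finset (List Bool),
    (∀ F : Set (ℕ → Bool), F.Finite → F ⊆ Y → ∀ m, ∃ j, F ⊆ Clop (v m j)) →
    ∃ s : (ℕ → ℕ) × (ℕ → ℕ), StrictMono s.2 ∧ s.2 0 = 0 ∧
      ∀ F : Set (ℕ → Bool), F.Finite → F ⊆ Y → ∃ᶠ k in atTop, F ⊆ Wb v s k

/-- **Main construction.** -/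
theorem exists_blockSel (CH : (ℵ₁ : Cardinal.{0}) = 𝔠) :
    ∃ Y : Set (ℕ → Bool), Y.Nonempty ∧ BlockSel Y ∧
      (∀ z : ℕ → Bool, ∃ x ∈ Y, ∃ y ∈ Y, xorB x y = z) := by
  classical
  let D : Set (ℕ → Bool) := {z | FinSupp z}
  have hDc : D.Countable := countable_finSupp
  have hDd : Dense D := by
    rw [dense_iff_inter_open]
    intro U hU hne
    exact exists_finSupp_mem hU hne
  obtain ⟨e, he⟩ := exists_surjection_omega1 CH (α := ℕ → Bool) (by simp)
  obtain ⟨v, hv⟩ := exists_surjection_omega1 CH (α := ℕ → ℕ → Finset (List Bool)) (by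
    have h2 : #(ℕ → ℕ → Finset (List Bool)) = (ℵ₀ ^ ℵ₀) ^ ℵ₀ := by simp
    rw [h2]
    simp)
  let Pt : ((ℵ₁ : Cardinal.{0}).ord.ToType → ℕ → Bool) → (ℵ₁ : Cardinal.{0}).ord.ToType →
      Set (ℕ → Bool) := fun prev a =>
        D ∪ (prev '' Set.Iio a ∪ (fun b => xorB (e b) (prev b)) '' Set.Iio a)
  let Sp : Set (ℕ → Bool) → (ℕ → ℕ → Finset (List Bool)) → (ℕ → ℕ) × (ℕ → ℕ) → Prop :=
    fun A v s => BlockProp v s ∧
      ∀ F : Set (ℕ → Bool), F.Finite → F ⊆ A → ∀ᶠ k in atTop, F ⊆ Wb v s k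
  let sel : Set (ℕ → Bool) → (ℕ → ℕ → Finset (List Bool)) → (ℕ → ℕ) × (ℕ → ℕ) := fun A v =>
    if h : ∃ s, Sp A v s then h.choose else (fun _ => 0, fun _ => 0)
  have hsel : ∀ (A : Set (ℕ → Bool)) (v : ℕ → ℕ → Finset (List Bool)), A.Countable → D ⊆ A →
      (∀ F : Set (ℕ → Bool), F.Finite → F ⊆ A → ∀ m, ∃ j, F ⊆ Clop (v m j)) →
      Sp A v (sel A v) := by
    intro A v hA hDA hAv
    have h1 : ∃ s, Sp A v s := exists_sel hA hDd hDA v hAv
    have h4 : sel A v = h1.choose := dif_pos h1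
    rw [h4]
    exact h1.choose_spec
  let Act : ((ℵ₁ : Cardinal.{0}).ord.ToType → ℕ → Bool) → (ℵ₁ : Cardinal.{0}).ord.ToType →
      (ℵ₁ : Cardinal.{0}).ord.ToType → Prop := fun prev a β =>
    BlockProp (v a) (sel (Pt prev a) (v a)) ∧
    ∀ F : Set (ℕ → Bool), F.Finite → F ⊆ Pt prev β →
      ∃ᶠ k in atTop, F ⊆ Wb (v a) (sel (Pt prev a) (v a)) k
  let P : (ℵ₁ : Cardinal.{0}).ord.ToType → ((ℵ₁ : Cardinal.{0}).ord.ToType → ℕ → Bool) →
      (ℕ → Bool) → Prop := fun β prev y =>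
    ∀ a ≤ β, Act prev a β → ∀ F : Set (ℕ → Bool), F.Finite → F ⊆ Pt prev β →
      ∃ᶠ k in atTop, insert y (insert (xorB (e β) y) F) ⊆ Wb (v a) (sel (Pt prev a) (v a)) k
  have hPtc : ∀ prev a, (Pt prev a).Countable := fun prev a =>
    hDc.union (((countable_Iio_omega1 a).image _).union ((countable_Iio_omega1 a).image _))
  obtain ⟨Y, hY⟩ := exists_transfinite P (by
    intro β prev
    let Od : ((ℵ₁ : Cardinal.{0}).ord.ToType × Set (ℕ → Bool)) × ℕ → Set (ℕ → Bool) := fun p =>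
      ⋃ k, ⋃ (_ : p.2 ≤ k ∧ p.1.2 ⊆ Wb (v p.1.1) (sel (Pt prev p.1.1) (v p.1.1)) k),
        (Wb (v p.1.1) (sel (Pt prev p.1.1) (v p.1.1)) k ∩
          xorB (e β) ⁻¹' Wb (v p.1.1) (sel (Pt prev p.1.1) (v p.1.1)) k)
    let Idx : Set (((ℵ₁ : Cardinal.{0}).ord.ToType × Set (ℕ → Bool)) × ℕ) :=
      {p | (p.1.1 ≤ β ∧ Act prev p.1.1 β) ∧ p.1.2.Finite ∧ p.1.2 ⊆ Pt prev β}
    have hIdx : Idx.Countable := by
      have h1 : (Set.Iic β).Countable := by
        rw [← Set.Iio_insert]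
        exact (countable_Iio_omega1 β).insert β
      refine ((h1.prod (Set.countable_ofPred_finite_subset (hPtc prev β))).prod
        (to_countable (univ : Set ℕ))).mono ?_
      rintro ⟨⟨a, F⟩, n⟩ ⟨⟨h1, -⟩, h2⟩
      exact ⟨⟨h1, h2⟩, trivial⟩
    have hOo : ∀ p, IsOpen (Od p) := by
      intro p
      refine isOpen_iUnion fun k => isOpen_iUnion fun _ => ?_
      exact (isOpen_Wb _ _ _).inter ((isOpen_Wb _ _ _).preimage (xorHomeo (e β)).continuous)
    have hOd : ∀ p ∈ Idx, Dense (Od p) := by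
      rintro ⟨⟨a, F⟩, n⟩ ⟨⟨ha, hact⟩, hF, hFs⟩
      rw [dense_iff_inter_open]
      rintro U hU ⟨x, hx⟩
      obtain ⟨l, hl⟩ : ∃ l : List Bool, CylB l ⊆ U := by
        rw [isOpen_pi_iff] at hU
        obtain ⟨I, u, hu, hsub⟩ := hU x hx
        obtain ⟨L, hL⟩ : ∃ L, ∀ i ∈ I, i < L :=
          ⟨I.sup id + 1, fun i hi => Nat.lt_succ_of_le (Finset.le_sup (f := id) hi)⟩
        refine ⟨List.ofFn fun i : Fin L => x i, fun y hy => hsub ?_⟩
        intro i hi
        have hiL : i < L := hL i hi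
        have h1 := hy i (by rw [List.length_ofFn]; exact hiL)
        have h2 : (List.ofFn fun i : Fin L => x i).getD i false = x i := by
          simp [List.getD_eq_getElem?_getD, hiL]
        rw [h1, h2]
        exact (hu i hi).2
      obtain ⟨k, hk, hFk⟩ := Filter.frequently_atTop.1 (hact.2 F hF hFs) (max n l.length)
      obtain ⟨x, hx, h1, h2⟩ := hact.1.2.2 k (e β) l ((le_max_right _ _).trans hk)
      exact ⟨x, hl hx, mem_iUnion.2 ⟨k, mem_iUnion.2 ⟨⟨(le_max_left _ _).trans hk, hFk⟩,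
        h1, h2⟩⟩⟩
    have hdense : Dense (⋂ p ∈ Idx, Od p) :=
      dense_biInter_of_isOpen (fun p _ => hOo p) hIdx hOd
    obtain ⟨y, hy⟩ := hdense.nonempty
    refine ⟨y, ?_⟩
    intro a ha hact F hF hFs
    rw [Filter.frequently_atTop]
    intro n
    have h1 := mem_iInter₂.1 hy ((a, F), n) ⟨⟨ha, hact⟩, hF, hFs⟩
    obtain ⟨k, hk⟩ := mem_iUnion.1 h1
    obtain ⟨⟨hk1, hk2⟩, hk3, hk4⟩ := mem_iUnion.1 hk
    exact ⟨k, hk1, insert_subset hk3 (insert_subset hk4 hk2)⟩) (by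
    intro β prev prev' y hpp hP
    have hPt : ∀ a ≤ β, Pt prev a = Pt prev' a := by
      intro a ha
      have h1 : prev '' Set.Iio a = prev' '' Set.Iio a :=
        image_congr fun b hb => hpp b (lt_of_lt_of_le hb ha)
      have h2 : (fun b => xorB (e b) (prev b)) '' Set.Iio a =
          (fun b => xorB (e b) (prev' b)) '' Set.Iio a :=
        image_congr fun b hb => by rw [hpp b (lt_of_lt_of_le hb ha)]
      simp only [Pt, h1, h2]
    intro a ha hact F hF hFs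
    have h1 : Act prev a β := by
      refine ⟨by rw [hPt a ha]; exact hact.1, ?_⟩
      intro F' hF' hFs'
      have := hact.2 F' hF' (by rw [← hPt β le_rfl]; exact hFs')
      rw [← hPt a ha] at this
      exact this
    have h2 := hP a ha h1 F hF (by rw [hPt β le_rfl]; exact hFs)
    rw [hPt a ha] at h2
    exact h2)
  have hne : Nonempty (ℵ₁ : Cardinal.{0}).ord.ToType := by
    rw [← Cardinal.mk_ne_zero_iff, Cardinal.mk_ord_toType]
    exact (Cardinal.aleph_pos 1).ne'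
  refine ⟨D ∪ (range Y ∪ range fun b => xorB (e b) (Y b)),
    ⟨Y (Classical.arbitrary _), Or.inr (Or.inl ⟨_, rfl⟩)⟩, ?_, ?_⟩
  · -- the selection property
    intro v' hv'
    obtain ⟨a, ha⟩ := hv v'
    have hsub : Pt Y a ⊆ D ∪ (range Y ∪ range fun b => xorB (e b) (Y b)) :=
      union_subset_union_right _ (union_subset_union (image_subset_range _ _)
        (image_subset_range _ _))
    have hbase := hsel (Pt Y a) v' (hPtc Y a) subset_union_left
      fun F hF hFA m => hv' F hF (hFA.trans hsub) m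
    -- splitting a finite set
    have hsplit : ∀ (s : Set (ℵ₁ : Cardinal.{0}).ord.ToType) (F : Set (ℕ → Bool)), F.Finite →
        F ⊆ D ∪ (Y '' s ∪ (fun b => xorB (e b) (Y b)) '' s) →
        F ⊆ D ∨ ∃ b ∈ s, F ⊆ D ∪ (Y '' Set.Iic b ∪ (fun b => xorB (e b) (Y b)) '' Set.Iic b) := by
      intro s F hF hFs
      by_cases hFD : F ⊆ D
      · exact Or.inl hFD
      · right
        have h1 : ∀ y : ℕ → Bool, ∃ b, y ∈ F \ D → b ∈ s ∧ (Y b = y ∨ xorB (e b) (Y b) = y) := by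
          intro y
          by_cases hy : y ∈ F \ D
          · rcases hFs hy.1 with h | ⟨b, hb, hby⟩ | ⟨b, hb, hby⟩
            · exact absurd h hy.2
            · exact ⟨b, fun _ => ⟨hb, Or.inl hby⟩⟩
            · exact ⟨b, fun _ => ⟨hb, Or.inr hby⟩⟩
          · exact ⟨Classical.arbitrary _, fun h => absurd h hy⟩
        choose b hb using h1
        have hfin : (F \ D).Finite := hF.subset sdiff_subset
        obtain ⟨y0, hy0, hmax⟩ := Set.exists_max_image (F \ D) b hfin (by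
          obtain ⟨y, hy1, hy2⟩ := not_subset.1 hFD
          exact ⟨y, hy1, hy2⟩)
        refine ⟨b y0, (hb y0 hy0).1, fun y hy => ?_⟩
        by_cases hyD : y ∈ D
        · exact Or.inl hyD
        · rcases (hb y ⟨hy, hyD⟩).2 with h | h
          · exact Or.inr (Or.inl ⟨b y, hmax y ⟨hy, hyD⟩, h⟩)
          · exact Or.inr (Or.inr ⟨b y, hmax y ⟨hy, hyD⟩, h⟩)
    refine ⟨sel (Pt Y a) v', hbase.1.1, hbase.1.2.1, ?_⟩
    have hfreq : ∀ F : Set (ℕ → Bool), F.Finite → F ⊆ Pt Y a →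
        ∃ᶠ k in atTop, F ⊆ Wb v' (sel (Pt Y a) v') k := fun F hF hFA =>
      (hbase.2 F hF hFA).frequently
    have hT : ∀ b, ∀ F : Set (ℕ → Bool), F.Finite →
        F ⊆ D ∪ (Y '' Set.Iic b ∪ (fun b => xorB (e b) (Y b)) '' Set.Iic b) →
        ∃ᶠ k in atTop, F ⊆ Wb v' (sel (Pt Y a) v') k := by
      intro b
      induction b using WellFoundedLT.induction with
      | ind b ih =>
        intro F hF hFb
        rcases lt_or_ge b a with hba | hab
        · apply hfreq F hF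
          refine hFb.trans (union_subset_union_right _ (union_subset_union (image_mono ?_)
            (image_mono ?_)))
          · intro c hc
            exact lt_of_le_of_lt hc hba
          · intro c hc
            exact lt_of_le_of_lt hc hba
        · have hact : Act Y a b := by
            refine ⟨by rw [ha]; exact hbase.1, ?_⟩
            intro F' hF' hFs'
            rw [ha]
            rcases hsplit _ F' hF' hFs' with h | ⟨c, hc, hFc⟩
            · exact hfreq F' hF' (h.trans subset_union_left)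
            · exact ih c hc F' hF' hFc
          have h0 := (hY b) a hab hact (F \ {Y b, xorB (e b) (Y b)}) (hF.subset sdiff_subset) (by
            rintro y ⟨hy1, hy2⟩
            rcases hFb hy1 with h | ⟨c, hc, hcy⟩ | ⟨c, hc, hcy⟩
            · exact Or.inl h
            · refine Or.inr (Or.inl ⟨c, ?_, hcy⟩)
              rcases (show c ≤ b from hc).lt_or_eq with h | h
              · exact h
              · subst h
                exact absurd (Or.inl hcy.symm) hy2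
            · refine Or.inr (Or.inr ⟨c, ?_, hcy⟩)
              rcases (show c ≤ b from hc).lt_or_eq with h | h
              · exact h
              · subst h
                exact absurd (Or.inr hcy.symm) hy2)
          rw [ha] at h0
          refine h0.mono fun k hk y hy => hk ?_
          by_cases hyb : y ∈ ({Y b, xorB (e b) (Y b)} : Set (ℕ → Bool))
          · rcases hyb with h | h
            · exact Or.inl h
            · exact Or.inr (Or.inl h)
          · exact Or.inr (Or.inr ⟨hy, hyb⟩)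
    intro F hF hFY
    rw [← image_univ, ← image_univ] at hFY
    rcases hsplit _ F hF hFY with h | ⟨b, -, hFb⟩
    · exact hfreq F hF (h.trans subset_union_left)
    · exact hT b F hF hFb
  · intro z
    obtain ⟨b, rfl⟩ := he z
    refine ⟨Y b, Or.inr (Or.inl ⟨b, rfl⟩), xorB (e b) (Y b), Or.inr (Or.inr ⟨b, rfl⟩), ?_⟩
    rw [xorB_comm (e b) (Y b), xorB_self_cancel]

end Pool.Agent.W636.OGp
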