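import Pool.Agent.Helper185.SelTransport

/-!
Groupable covers: definitions and basic facts.
-/

namespace Pool.Agent.W636.OGp

open Set Filter Topology Pool.Agent.Helper185.Sel

/-- `F 0, F 1, ...` is a partition of the family `U` into (countably many) finite sets: the `F n`
are finite, nonempty, pairwise disjoint, and their union is `U`. -/
def FinPart {X : Type*} (U : Set (Set X)) (F : ℕ → Set (Set X)) : Prop :=
  (∀ n, (F n).Finite ∧ (F n).Nonempty) ∧ (∀ m n, m ≠ n → Disjoint (F m) (F n)) ∧ ⋃ n, F n = U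

/-- `U` is multifinite: it can be partitioned into infinitely many finite covers of `X`. -/
def Multifinite {X : Type*} (U : Set (Set X)) : Prop :=
  ∃ F : ℕ → Set (Set X), FinPart U F ∧ ∀ n, IsCov (F n)

/-- The omega-groupable open covers of `X`: the open covers that are multifinite or have a
partition into finite sets `F n` such that the family of the unions of the `F n` is an
open omega-cover of `X`. -/
def OmegaGp (X : Type*) [TopologicalSpace X] : Set (Set (Set X)) :=
  {U | U ∈ OpenFam X ∧ IsCov U ∧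
    (Multifinite U ∨ ∃ F : ℕ → Set (Set X), FinPart U F ∧
      range (fun n => ⋃₀ F n) ∈ OmegaOf (OpenFam X))}

/-! ### interval partitions -/

section blocks

variable {X : Type*}

/-- the `k`-th block -/
def blk (V : ℕ → Set X) (N : ℕ → ℕ) (k : ℕ) : Set (Set X) := V '' Ico (N k) (N (k + 1))

theorem exists_block {N : ℕ → ℕ} (hN : StrictMono N) (h0 : N 0 = 0) (n : ℕ) :
    ∃ k, N k ≤ n ∧ n < N (k + 1) := by
  induction n with
  | zero => exact ⟨0, h0.le, by have := hN (Nat.lt_succ_self 0); rw [h0] at this; exact this⟩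
  | succ n ih =>
    obtain ⟨k, hk1, hk2⟩ := ih
    by_cases h : n + 1 < N (k + 1)
    · exact ⟨k, by omega, h⟩
    · refine ⟨k + 1, by omega, ?_⟩
      have := hN (Nat.lt_succ_self (k + 1))
      have e : (k + 1).succ = k + 1 + 1 := rfl
      rw [e] at this
      omega

theorem finPart_blk {V : ℕ → Set X} (hV : Function.Injective V) {N : ℕ → ℕ} (hN : StrictMono N)
    (h0 : N 0 = 0) : FinPart (range V) (blk V N) := by
  refine ⟨fun n => ⟨(finite_Ico _ _).image V, ?_⟩, ?_, ?_⟩
  · exact ⟨V (N n), N n, ⟨le_rfl, hN (Nat.lt_succ_self n)⟩, rfl⟩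
  · intro m n hmn
    rw [Set.disjoint_left]
    rintro _ ⟨i, hi, rfl⟩ ⟨j, hj, hij⟩
    have hji := hV hij
    subst hji
    rcases lt_or_gt_of_ne hmn with h | h
    · have h1 : N (m + 1) ≤ N n := hN.monotone h
      have h2 := hi.2
      have h3 := hj.1
      omega
    · have h1 : N (n + 1) ≤ N m := hN.monotone h
      have h2 := hj.2
      have h3 := hi.1
      omega
  · ext u
    simp only [mem_iUnion, mem_range]
    constructor
    · rintro ⟨k, n, -, rfl⟩
      exact ⟨n, rfl⟩
    · rintro ⟨n, rfl⟩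
      obtain ⟨k, h1, h2⟩ := exists_block hN h0 n
      exact ⟨k, n, ⟨h1, h2⟩, rfl⟩

theorem mem_sUnion_blk {V : ℕ → Set X} {N : ℕ → ℕ} {k : ℕ} {x : X} :
    x ∈ ⋃₀ blk V N k ↔ ∃ n, N k ≤ n ∧ n < N (k + 1) ∧ x ∈ V n := by
  constructor
  · rintro ⟨_, ⟨n, ⟨h1, h2⟩, rfl⟩, hx⟩
    exact ⟨n, h1, h2, hx⟩
  · rintro ⟨n, h1, h2, hx⟩
    exact ⟨_, ⟨n, ⟨h1, h2⟩, rfl⟩, hx⟩

/-- Distinct open sets such that every finite set is contained in infinitely many block unions
form an omega-groupable cover. -/
theorem omegaGp_of_blocks [TopologicalSpace X] {V : ℕ → Set X}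
    (hV : Function.Injective V) (hVo : ∀ n, IsOpen (V n)) (hVu : ∀ n, V n ≠ univ) {N : ℕ → ℕ}
    (hN : StrictMono N) (h0 : N 0 = 0)
    (hF : ∀ F : Set X, F.Finite → ∃ᶠ k in atTop, F ⊆ ⋃₀ blk V N k) :
    range V ∈ OmegaGp X := by
  classical
  have hopen : range V ∈ OpenFam X := by
    rintro _ ⟨n, rfl⟩
    exact hVo n
  have hcov : IsCov (range V) := by
    refine ⟨?_, ?_⟩
    · rw [eq_univ_iff_forall]
      intro x
      obtain ⟨k, hk⟩ := (hF {x} (finite_singleton x)).exists
      obtain ⟨n, -, -, hx⟩ := mem_sUnion_blk.1 (hk rfl)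
      exact ⟨_, ⟨n, rfl⟩, hx⟩
    · rintro ⟨n, hn⟩
      exact hVu n hn
  refine ⟨hopen, hcov, ?_⟩
  by_cases hK : {k | ⋃₀ blk V N k = univ}.Infinite
  · -- infinitely many blocks cover the space
    left
    let e : ℕ → ℕ := Nat.nth (fun k => ⋃₀ blk V N k = univ)
    have he : StrictMono e := Nat.nth_strictMono hK
    have hek : ∀ i, ⋃₀ blk V N (e i) = univ := fun i => Nat.nth_mem_of_infinite hK i
    let N' : ℕ → ℕ := fun i => match i with
      | 0 => 0
      | i + 1 => N (e i + 1)
    have hN' : StrictMono N' := by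
      apply strictMono_nat_of_lt_succ
      intro i
      cases i with
      | zero =>
        change 0 < N (e 0 + 1)
        exact lt_of_le_of_lt (Nat.zero_le _) (hN (Nat.lt_succ_self (e 0)))
      | succ i =>
        change N (e i + 1) < N (e (i + 1) + 1)
        apply hN
        have := he (Nat.lt_succ_self i)
        have h1 : i.succ = i + 1 := rfl
        rw [h1] at this
        omega
    refine ⟨blk V N', finPart_blk hV hN' rfl, ?_⟩
    intro i
    refine ⟨?_, ?_⟩
    · rw [eq_univ_iff_forall]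
      intro x
      have : x ∈ ⋃₀ blk V N (e i) := by rw [hek i]; trivial
      obtain ⟨n, h1, h2, hx⟩ := mem_sUnion_blk.1 this
      refine mem_sUnion_blk.2 ⟨n, ?_, h2, hx⟩
      cases i with
      | zero => exact Nat.zero_le _
      | succ i =>
        change N (e i + 1) ≤ n
        refine le_trans (hN.monotone ?_) h1
        exact he (Nat.lt_succ_self i)
    · rintro ⟨n, -, hn⟩
      exact hVu n hn
  · -- only finitely many
    right
    rw [Set.not_infinite] at hK
    obtain ⟨k0, hk0⟩ : ∃ k0, ∀ k, k0 ≤ k → ⋃₀ blk V N k ≠ univ := by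
      obtain ⟨b, hb⟩ := hK.bddAbove
      refine ⟨b + 1, fun k hk h => ?_⟩
      have := hb h
      omega
    let N' : ℕ → ℕ := fun i => if i ≤ N k0 then i else N (k0 + (i - N k0))
    have hN'1 : ∀ i, i ≤ N k0 → N' i = i := fun i hi => if_pos hi
    have hN'2 : ∀ i, N' (N k0 + i) = N (k0 + i) := by
      intro i
      by_cases hi : i = 0
      · subst hi
        exact if_pos le_rfl
      · have : ¬ (N k0 + i ≤ N k0) := by omega
        simp only [N', this, if_false]
        congr 2
        omega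
    have hN' : StrictMono N' := by
      apply strictMono_nat_of_lt_succ
      intro i
      rcases lt_or_ge i (N k0) with h | h
      · rw [hN'1 i h.le, hN'1 (i + 1) h]
        exact Nat.lt_succ_self i
      · obtain ⟨j, rfl⟩ := Nat.exists_eq_add_of_le h
        rw [hN'2, add_assoc, hN'2]
        exact hN (by omega)
    have hfp := finPart_blk hV hN' (hN'1 0 (Nat.zero_le _))
    have hblk2 : ∀ j, blk V N' (N k0 + j) = blk V N (k0 + j) := by
      intro j
      unfold blk
      rw [hN'2, add_assoc, hN'2, ← add_assoc]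
    refine ⟨blk V N', hfp, ?_, ⟨?_, ?_⟩, ?_⟩
    · rintro _ ⟨i, rfl⟩
      apply isOpen_sUnion
      rintro _ ⟨n, -, rfl⟩
      exact hVo n
    · rw [eq_univ_iff_forall]
      intro x
      have : x ∈ ⋃₀ range V := by rw [hcov.1]; trivial
      obtain ⟨_, ⟨n, rfl⟩, hx⟩ := this
      obtain ⟨k, h1, h2⟩ := exists_block hN' (hN'1 0 (Nat.zero_le _)) n
      exact ⟨_, ⟨k, rfl⟩, mem_sUnion_blk.2 ⟨n, h1, h2, hx⟩⟩
    · rintro ⟨i, hi⟩
      change ⋃₀ blk V N' i = univ at hi
      rcases lt_or_ge i (N k0) with h | h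
      · have : ⋃₀ blk V N' i = V i := by
          ext x
          rw [mem_sUnion_blk, hN'1 i h.le, hN'1 (i + 1) h]
          constructor
          · rintro ⟨n, h1, h2, hx⟩
            have : n = i := by omega
            exact this ▸ hx
          · intro hx
            exact ⟨i, le_rfl, Nat.lt_succ_self i, hx⟩
        rw [this] at hi
        exact hVu i hi
      · obtain ⟨j, rfl⟩ := Nat.exists_eq_add_of_le h
        rw [hblk2] at hi
        exact hk0 _ (Nat.le_add_right _ _) hi
    · intro F hFf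
      obtain ⟨k, hk, hFk⟩ := Filter.frequently_atTop.1 (hF F hFf) k0
      obtain ⟨j, rfl⟩ := Nat.exists_eq_add_of_le hk
      refine ⟨_, ⟨N k0 + j, rfl⟩, ?_⟩
      change F ⊆ ⋃₀ blk V N' (N k0 + j)
      rw [hblk2]
      exact hFk

end blocks

/-! ### members of omega-covers -/

theorem exists_many {X : Type*} {G : Set (Set (Set X))} {U : Set (Set X)} (hU : U ∈ OmegaOf G)
    (n : ℕ) (F : Set X) (hF : F.Finite) :
    ∃ S : Finset (Set X), S.card = n ∧ ∀ u ∈ S, u ∈ U ∧ F ⊆ u := by
  classical
  induction n with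
  | zero => exact ⟨∅, rfl, by simp⟩
  | succ n ih =>
    obtain ⟨S, hS, hSU⟩ := ih
    have hne : ∀ u : Set X, ∃ x : Set X, x.Finite ∧ (u ∈ S → ¬ x ⊆ u) := by
      intro u
      by_cases hu : u ∈ S
      · have : u ≠ univ := fun h => hU.2.1.2 (h ▸ (hSU u hu).1)
        obtain ⟨x, hx⟩ := (ne_univ_iff_exists_notMem u).1 this
        exact ⟨{x}, finite_singleton x, fun _ h => hx (h rfl)⟩
      · exact ⟨∅, finite_empty, fun h => absurd h hu⟩
    choose x hx1 hx2 using hne
    obtain ⟨u, hu, hFu⟩ := hU.2.2 (F ∪ ⋃ v ∈ S, x v)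
      (hF.union (Set.Finite.biUnion S.finite_toSet fun v _ => hx1 v))
    have huS : u ∉ S := by
      intro h
      apply hx2 u h
      exact (Set.subset_biUnion_of_mem (u := x) (show u ∈ (S : Set (Set X)) from h)).trans
        (subset_union_right.trans hFu)
    refine ⟨insert u S, by rw [Finset.card_insert_of_notMem huS, hS], ?_⟩
    intro v hv
    rcases Finset.mem_insert.1 hv with rfl | hv
    · exact ⟨hu, subset_union_left.trans hFu⟩
    · exact hSU v hv

/-- injective choice from finite sets of growing cardinality -/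
theorem exists_injective_choice {α : Type*} (S : ℕ → Finset α) (hS : ∀ n, (S n).card = n + 1) :
    ∃ V : ℕ → α, Function.Injective V ∧ ∀ n, V n ∈ S n := by
  classical
  rw [← Finset.all_card_le_biUnion_card_iff_exists_injective]
  intro s
  rcases s.eq_empty_or_nonempty with rfl | hs
  · simp
  · have hm := s.max'_mem hs
    calc s.card ≤ (Finset.range (s.max' hs + 1)).card := Finset.card_le_card fun i hi =>
          Finset.mem_range.2 (Nat.lt_succ_of_le (s.le_max' i hi))
      _ = s.max' hs + 1 := Finset.card_range _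
      _ = (S (s.max' hs)).card := (hS _).symm
      _ ≤ _ := Finset.card_le_card (Finset.subset_biUnion_of_mem S hm)

/-! ### transport -/

section transport

variable {A B : Type*} [TopologicalSpace A] [TopologicalSpace B]

theorem pull_finPart (e : A ≃ₜ B) {U : Set (Set B)} {F : ℕ → Set (Set B)} (h : FinPart U F) :
    FinPart (pullFam e U) (fun n => pullFam e (F n)) := by
  refine ⟨fun n => ⟨(h.1 n).1.image _, (h.1 n).2.image _⟩, ?_, ?_⟩
  · intro m n hmn
    exact Set.disjoint_image_of_injective (pre_injective e) (h.2.1 m n hmn)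
  · rw [← h.2.2]
    unfold pullFam
    rw [image_iUnion]

theorem sUnion_pull (e : A ≃ₜ B) (U : Set (Set B)) : ⋃₀ pullFam e U = e ⁻¹' ⋃₀ U := by
  unfold pullFam
  rw [sUnion_image, preimage_sUnion]

theorem pull_omegaGp (e : A ≃ₜ B) {U : Set (Set B)} (hU : U ∈ OmegaGp B) :
    pullFam e U ∈ OmegaGp A := by
  refine ⟨pull_openFam e hU.1, pull_isCov e hU.2.1, ?_⟩
  rcases hU.2.2 with ⟨F, hF, hF2⟩ | ⟨F, hF, hF2⟩
  · exact Or.inl ⟨_, pull_finPart e hF, fun n => pull_isCov e (hF2 n)⟩
  · refine Or.inr ⟨_, pull_finPart e hF, ?_⟩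
    have := pull_omega e hF2
    rw [pull_range] at this
    convert this using 2
    funext n
    exact sUnion_pull e (F n)

end transport

/-! ### countable omega-covers are omega-groupable -/

theorem infinite_of_omega {X : Type*} {G : Set (Set (Set X))} {U : Set (Set X)}
    (hU : U ∈ OmegaOf G) : U.Infinite := by
  intro hfin
  obtain ⟨S, hS, hSU⟩ := exists_many hU (hfin.toFinset.card + 1) ∅ finite_empty
  have : S ⊆ hfin.toFinset := fun u hu => hfin.mem_toFinset.2 (hSU u hu).1
  have := Finset.card_le_card this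
  omega

theorem omegaGp_of_omega {X : Type*} [TopologicalSpace X] {V : ℕ → Set X}
    (h : range V ∈ OmegaOf (OpenFam X)) : range V ∈ OmegaGp X := by
  have hinf := infinite_of_omega h
  have hc : (range V).Countable := countable_range V
  have : Infinite (range V) := hinf.to_subtype
  have : Countable (range V) := hc.to_subtype
  obtain ⟨e⟩ := nonempty_equiv_of_countable (α := ℕ) (β := range V)
  let W : ℕ → Set X := fun n => (e n : Set X)
  have hW : Function.Injective W := fun m n hmn => e.injective (Subtype.ext hmn)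
  have hWr : range W = range V := by
    ext u
    constructor
    · rintro ⟨n, rfl⟩
      exact (e n).2
    · intro hu
      exact ⟨e.symm ⟨u, hu⟩, by simp [W]⟩
  rw [← hWr]
  rw [← hWr] at h
  refine ⟨h.1, h.2.1, Or.inr ⟨blk W id, finPart_blk hW strictMono_id rfl, ?_⟩⟩
  have : (fun n => ⋃₀ blk W id n) = W := by
    funext n
    ext x
    rw [mem_sUnion_blk]
    constructor
    · rintro ⟨m, h1, h2, hx⟩
      have : m = n := by
        simp only [id] at h1 h2
        omega
      exact this ▸ hx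
    · intro hx
      exact ⟨n, le_rfl, Nat.lt_succ_self n, hx⟩
  rw [this]
  exact h

theorem s1_omega_sub {X : Type*} [TopologicalSpace X]
    (h : S1 (OmegaOf (OpenFam X)) (OmegaOf (OpenFam X))) :
    S1 (OmegaOf (OpenFam X)) (OmegaGp X) := by
  intro U hU
  obtain ⟨V, hV, hV2⟩ := h U hU
  exact ⟨V, hV, omegaGp_of_omega hV2⟩

/-- Countable spaces satisfy `S₁(Ω, Ω)`. -/
theorem s1_of_countable {X : Type*} [TopologicalSpace X] [Countable X] :
    S1 (OmegaOf (OpenFam X)) (OmegaOf (OpenFam X)) := by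
  classical
  intro U hU
  have hc : {F : Set X | F.Finite ∧ F ⊆ univ}.Countable :=
    Set.countable_ofPred_finite_subset (to_countable univ)
  obtain ⟨G, hG⟩ := hc.exists_eq_range ⟨∅, finite_empty, empty_subset _⟩
  have hGf : ∀ n, (G n).Finite := fun n => by
    have : G n ∈ {F : Set X | F.Finite ∧ F ⊆ univ} := by rw [hG]; exact ⟨n, rfl⟩
    exact this.1
  have h1 : ∀ n, ∃ u ∈ U n, G n ⊆ u := fun n => (hU n).2.2 _ (hGf n)
  choose V hV hGV using h1
  refine ⟨V, hV, ?_, ⟨?_, ?_⟩, ?_⟩
  · rintro _ ⟨n, rfl⟩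
    exact (hU n).1 _ (hV n)
  · rw [eq_univ_iff_forall]
    intro x
    have : ({x} : Set X) ∈ {F : Set X | F.Finite ∧ F ⊆ univ} :=
      ⟨finite_singleton x, subset_univ _⟩
    rw [hG] at this
    obtain ⟨n, hn⟩ := this
    exact ⟨_, ⟨n, rfl⟩, hGV n (by rw [hn]; rfl)⟩
  · rintro ⟨n, hn⟩
    exact (hU n).2.1.2 (hn ▸ hV n)
  · intro F hF
    have : F ∈ {F : Set X | F.Finite ∧ F ⊆ univ} := ⟨hF, subset_univ _⟩
    rw [hG] at this
    obtain ⟨n, hn⟩ := this
    exact ⟨_, ⟨n, rfl⟩, hn ▸ hGV n⟩

end Pool.Agent.W636.OGp
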