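import Pool.Agent.W636.OGpSel
import Pool.Agent.H752R3.SierpBasics

/-!
Sets of reals: transport of the construction, and the consequences of Borel's Conjecture.
-/

namespace Pool.Agent.W636.OGp

open Set Filter Topology Cardinal Pool.Agent.H752R3 Pool.Agent.Helper185.Sel

/-- Under CH some set of reals satisfies `S₁(Ω, Ω-groupable)` and does not satisfy `S₁(Ω, Ω)`. -/
theorem exists_real (CH : (ℵ₁ : Cardinal.{0}) = 𝔠) :
    ∃ X : Set ℝ, S1 (OmegaOf (OpenFam X)) (OmegaGp X) ∧
      ¬ S1 (OmegaOf (OpenFam X)) (OmegaOf (OpenFam X)) := by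
  obtain ⟨Y, -, hY, hsum⟩ := exists_blockSel CH
  have hemb : IsEmbedding rho :=
    (continuous_rho.isClosedEmbedding rho_injective).isEmbedding
  let e : Y ≃ₜ rho '' Y := hemb.homeomorphImage Y
  refine ⟨rho '' Y, ?_, ?_⟩
  · exact s1_transport e (fun U hU => pull_omega e hU)
      (fun U hU => pull_omegaGp e.symm hU) hY.s1
  · intro h
    exact not_s1_of_sum hsum (s1_transport e.symm (fun U hU => pull_omega e.symm hU)
      (fun U hU => pull_omega e hU) h)

/-- Strong measure zero sets of reals: for all positive `ε n` the set is covered by closed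
intervals of the lengths `ε n`. -/
def StrongNull (X : Set ℝ) : Prop :=
  ∀ ε : ℕ → ℝ, (∀ n, 0 < ε n) → ∃ a : ℕ → ℝ, X ⊆ ⋃ n, Icc (a n) (a n + ε n)

theorem strongNull_of_s1 {X : Set ℝ} (h : S1 (OmegaOf (OpenFam X)) (OmegaGp X)) :
    StrongNull X := by
  classical
  intro ε hε
  let B : ∀ (m : ℕ), List ℝ → Set X := fun m l =>
    {x | ∃ j, ∃ b, l[j]? = some b ∧ |(x : ℝ) - b| < ε (Nat.pair m j) / 2}
  let U : ℕ → Set (Set X) := fun m => range (B m)
  have hfin : ∀ m, ∀ F : Set X, F.Finite → ∃ u ∈ U m, F ⊆ u := by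
    intro m F hF
    refine ⟨_, ⟨hF.toFinset.toList.map fun x : X => (x : ℝ), rfl⟩, ?_⟩
    intro x hx
    have h1 : x ∈ hF.toFinset.toList := by
      rw [Finset.mem_toList]
      exact hF.mem_toFinset.2 hx
    obtain ⟨j, hj⟩ := List.mem_iff_getElem?.1 h1
    refine ⟨j, (x : ℝ), by simp [hj], ?_⟩
    rw [sub_self, abs_zero]
    exact half_pos (hε _)
  have hopen : ∀ m l, IsOpen (B m l) := by
    intro m l
    have : B m l = ⋃ j, ⋃ b, ⋃ (_ : l[j]? = some b),
        {x : X | |(x : ℝ) - b| < ε (Nat.pair m j) / 2} := by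
      ext x
      simp only [B, mem_ofPred_eq, mem_iUnion, exists_prop]
    rw [this]
    refine isOpen_iUnion fun j => isOpen_iUnion fun b => isOpen_iUnion fun _ => ?_
    exact isOpen_lt ((continuous_subtype_val.sub continuous_const).abs) continuous_const
  -- from lists to intervals
  have hint : ∀ s : ℕ → List ℝ, (∀ x : X, ∃ m, x ∈ B m (s m)) →
      ∃ a : ℕ → ℝ, X ⊆ ⋃ n, Icc (a n) (a n + ε n) := by
    intro s hs
    refine ⟨fun n => ((s (Nat.unpair n).1)[(Nat.unpair n).2]?).getD 0 - ε n / 2, ?_⟩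
    intro x hx
    obtain ⟨m, j, b, hb, hxb⟩ := hs ⟨x, hx⟩
    refine mem_iUnion.2 ⟨Nat.pair m j, ?_⟩
    simp only [Nat.unpair_pair, hb, Option.getD_some]
    have := abs_lt.1 hxb
    constructor <;> linarith [this.1, this.2]
  by_cases huniv : ∃ m, (Set.univ : Set X) ∈ U m
  · obtain ⟨m, l, hl⟩ := huniv
    refine hint (fun _ => l) fun x => ⟨m, ?_⟩
    rw [hl]
    trivial
  · push Not at huniv
    have hU : ∀ m, U m ∈ OmegaOf (OpenFam X) := by
      intro m
      refine ⟨?_, ⟨?_, huniv m⟩, hfin m⟩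
      · rintro _ ⟨l, rfl⟩
        exact hopen m l
      · rw [eq_univ_iff_forall]
        intro x
        obtain ⟨u, hu, hx⟩ := hfin m {x} (finite_singleton x)
        exact ⟨u, hu, hx rfl⟩
    obtain ⟨V, hV, hVG⟩ := h U hU
    choose s hs using hV
    refine hint s fun x => ?_
    have : x ∈ ⋃₀ range V := by rw [hVG.2.1.1]; trivial
    obtain ⟨_, ⟨m, rfl⟩, hx⟩ := this
    exact ⟨m, by rw [hs m]; exact hx⟩

/-- Under Borel's Conjecture the two properties coincide. -/
theorem iff_of_borel (hBC : ∀ Z : Set ℝ, StrongNull Z → Z.Countable) (X : Set ℝ) :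
    S1 (OmegaOf (OpenFam X)) (OmegaOf (OpenFam X)) ↔ S1 (OmegaOf (OpenFam X)) (OmegaGp X) := by
  refine ⟨s1_omega_sub, fun h => ?_⟩
  have := (hBC X (strongNull_of_s1 h)).to_subtype
  exact s1_of_countable

end Pool.Agent.W636.OGp
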