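import Pool.Agent.W636.OGpDefs
import Pool.Agent.W636.OGpCH

/-!
From the block selection property to `S₁(Ω, Ω-groupable)`, and the failure of `S₁(Ω, Ω)` for sets
whose sums fill the Cantor group.
-/

namespace Pool.Agent.W636.OGp

open Set Filter Topology Cardinal Pool.Agent.H752R3 Pool.Agent.Helper185.Sel

/-- clopen refinement of an open neighbourhood of a finite set -/
theorem exists_code {Y : Set (ℕ → Bool)} {F : Set (ℕ → Bool)} (hF : F.Finite)
    {u : Set Y} (hu : IsOpen u) (hFu : ∀ y : Y, (y : ℕ → Bool) ∈ F → y ∈ u) (hFY : F ⊆ Y) :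
    ∃ C : Finset (List Bool), F ⊆ Clop C ∧ ∀ y : Y, (y : ℕ → Bool) ∈ Clop C → y ∈ u := by
  classical
  obtain ⟨w, hw, rfl⟩ := isOpen_induced_iff.1 hu
  have h1 : ∀ x : ℕ → Bool, ∃ L : ℕ, x ∈ F → ∀ y : ℕ → Bool, (∀ i < L, y i = x i) → y ∈ w := by
    intro x
    by_cases hx : x ∈ F
    · have hxw : x ∈ w := hFu ⟨x, hFY hx⟩ hx
      rw [isOpen_pi_iff] at hw
      obtain ⟨I, s, hs, hsub⟩ := hw x hxw
      refine ⟨I.sup id + 1, fun _ y hy => hsub ?_⟩
      intro n hn
      have : n < I.sup id + 1 := Nat.lt_succ_of_le (Finset.le_sup (f := id) hn)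
      rw [hy n this]
      exact (hs n hn).2
    · exact ⟨0, fun h => absurd h hx⟩
  choose L hL using h1
  refine ⟨hF.toFinset.image fun x => List.ofFn fun i : Fin (L x) => x i, ?_, ?_⟩
  · intro x hx
    refine ⟨_, Finset.mem_image.2 ⟨x, hF.mem_toFinset.2 hx, rfl⟩, ?_⟩
    intro i hi
    have hi' : i < L x := by simpa using hi
    simp [List.getD_eq_getElem?_getD, hi']
  · rintro y ⟨l, hl, hy⟩
    obtain ⟨x, hx, rfl⟩ := Finset.mem_image.1 hl
    refine hL x (hF.mem_toFinset.1 hx) y fun i hi => ?_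
    rw [hy i (by simpa using hi)]
    simp [List.getD_eq_getElem?_getD, hi]

/-- The block selection property implies `S₁(Ω, Ω-groupable)`. -/
theorem BlockSel.s1 {Y : Set (ℕ → Bool)} (hY : BlockSel Y) :
    S1 (OmegaOf (OpenFam Y)) (OmegaGp Y) := by
  classical
  intro U hU
  let A : ℕ → Set (Finset (List Bool)) := fun m => {C | ∃ S : Finset (Set Y), S.card = m + 1 ∧
    (∀ u ∈ S, u ∈ U m) ∧ ∀ y : Y, (y : ℕ → Bool) ∈ Clop C → ∀ u ∈ S, y ∈ u}
  have hA : ∀ F : Set (ℕ → Bool), F.Finite → F ⊆ Y → ∀ m, ∃ C ∈ A m, F ⊆ Clop C := by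
    intro F hF hFY m
    obtain ⟨S, hS, hSU⟩ := exists_many (hU m) (m + 1) (Subtype.val ⁻¹' F : Set Y)
      (hF.preimage Subtype.val_injective.injOn)
    have hopen : IsOpen (⋂ u ∈ S, u) :=
      isOpen_biInter_finset fun u hu => (hU m).1 u (hSU u hu).1
    obtain ⟨C, hC1, hC2⟩ := exists_code hF hopen (fun y hy => by
      simp only [mem_iInter]
      exact fun u hu => (hSU u hu).2 hy) hFY
    refine ⟨C, ⟨S, hS, fun u hu => (hSU u hu).1, fun y hy u hu => ?_⟩, hC1⟩
    have := hC2 y hy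
    simp only [mem_iInter] at this
    exact this u hu
  have hAne : ∀ m, (A m).Nonempty := by
    intro m
    obtain ⟨C, hC, -⟩ := hA ∅ Set.finite_empty (empty_subset _) m
    exact ⟨C, hC⟩
  have hv : ∀ m, ∃ w : ℕ → Finset (List Bool), A m = range w := fun m =>
    (Set.to_countable (A m)).exists_eq_range (hAne m)
  choose v hv using hv
  obtain ⟨⟨f, N⟩, hN, hN0, hF⟩ := hY v (by
    intro F hF hFY m
    obtain ⟨C, hC, hFC⟩ := hA F hF hFY m
    rw [hv m] at hC
    obtain ⟨j, rfl⟩ := hC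
    exact ⟨j, hFC⟩)
  have hvA : ∀ m, v m (f m) ∈ A m := fun m => by rw [hv m]; exact ⟨_, rfl⟩
  choose S hS hSU hSC using hvA
  obtain ⟨V, hVi, hVS⟩ := exists_injective_choice S hS
  refine ⟨V, fun n => hSU n _ (hVS n), ?_⟩
  refine omegaGp_of_blocks hVi (fun n => (hU n).1 _ (hSU n _ (hVS n)))
    (fun n h => (hU n).2.1.2 (h ▸ hSU n _ (hVS n))) hN hN0 ?_
  intro G hG
  refine (hF (Subtype.val '' G) (hG.image _) (by rintro _ ⟨y, -, rfl⟩; exact y.2)).mono ?_
  intro k hk y hy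
  obtain ⟨m, h1, h2, h3⟩ := hk ⟨y, hy, rfl⟩
  exact mem_sUnion_blk.2 ⟨m, h1, h2, hSC m y h3 _ (hVS m)⟩

/-- restriction -/
def rs (L : ℕ) (x : ℕ → Bool) : Fin L → Bool := fun i => x i

theorem continuous_rs (L : ℕ) : Continuous (rs L) :=
  continuous_pi fun i => continuous_apply (i : ℕ)

/-- If the sums of the elements of `Y` fill the Cantor group then `Y` does not satisfy
`S₁(Ω, Ω)`. -/
theorem not_s1_of_sum {Y : Set (ℕ → Bool)}
    (hY : ∀ z : ℕ → Bool, ∃ x ∈ Y, ∃ y ∈ Y, xorB x y = z) :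
    ¬ S1 (OmegaOf (OpenFam Y)) (OmegaOf (OpenFam Y)) := by
  classical
  intro hS
  -- the covers
  let xr : ∀ L : ℕ, Finset (Fin L → Bool) → Finset (Fin L → Bool) := fun L C =>
    (C ×ˢ C).image fun p i => xor (p.1 i) (p.2 i)
  let U : ℕ → Set (Set Y) := fun m => {u | ∃ (L : ℕ) (C : Finset (Fin L → Bool)),
    C.card ^ 2 * 2 ^ (m + 2) ≤ 2 ^ L ∧ u = {y : Y | rs L y ∈ C}}
  have hxr : ∀ L C, (xr L C).card ≤ C.card ^ 2 := by
    intro L C
    refine Finset.card_image_le.trans ?_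
    rw [Finset.card_product, sq]
  have hlift : ∀ L : ℕ, Function.Surjective (rs L) := by
    intro L g
    refine ⟨fun i => if h : i < L then g ⟨i, h⟩ else false, ?_⟩
    funext i
    simp [rs]
  have hU : ∀ m, U m ∈ OmegaOf (OpenFam Y) := by
    intro m
    have hfin : ∀ F : Set Y, F.Finite → ∃ u ∈ U m, F ⊆ u := by
      intro F hF
      obtain ⟨L, hL⟩ : ∃ L, hF.toFinset.card ^ 2 * 2 ^ (m + 2) ≤ 2 ^ L :=
        ⟨_, Nat.lt_two_pow_self.le⟩
      refine ⟨_, ⟨L, hF.toFinset.image fun y : Y => rs L (y : ℕ → Bool), ?_, rfl⟩, ?_⟩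
      · refine le_trans ?_ hL
        have := Finset.card_image_le (s := hF.toFinset) (f := fun y : Y => rs L y)
        gcongr
      · intro y hy
        exact Finset.mem_image.2 ⟨y, hF.mem_toFinset.2 hy, rfl⟩
    refine ⟨?_, ⟨?_, ?_⟩, hfin⟩
    · rintro _ ⟨L, C, -, rfl⟩
      exact (isOpen_discrete (C : Set (Fin L → Bool))).preimage
        ((continuous_rs L).comp continuous_subtype_val)
    · rw [eq_univ_iff_forall]
      intro x
      obtain ⟨u, hu, hx⟩ := hfin {x} (finite_singleton x)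
      exact ⟨u, hu, hx rfl⟩
    · rintro ⟨L, C, hC, hu⟩
      -- then all strings of length `L` would be sums
      have h1 : (Finset.univ : Finset (Fin L → Bool)) ⊆ xr L C := by
        intro g _
        obtain ⟨z, rfl⟩ := hlift L g
        obtain ⟨x, hx, y, hy, hxy⟩ := hY z
        have hxC : rs L x ∈ C := by
          have : (⟨x, hx⟩ : Y) ∈ {y : Y | rs L y ∈ C} := by rw [← hu]; trivial
          exact this
        have hyC : rs L y ∈ C := by
          have : (⟨y, hy⟩ : Y) ∈ {y : Y | rs L y ∈ C} := by rw [← hu]; trivial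
          exact this
        refine Finset.mem_image.2 ⟨(rs L x, rs L y), Finset.mem_product.2 ⟨hxC, hyC⟩, ?_⟩
        funext i
        rw [← hxy]
        rfl
      have h2 := (Finset.card_le_card h1).trans (hxr L C)
      have h3 : (Finset.univ : Finset (Fin L → Bool)).card = 2 ^ L := by simp
      rw [h3] at h2
      have h4 : 0 < 2 ^ L := by positivity
      have h5 : 4 ≤ 2 ^ (m + 2) := by
        calc 4 = 2 ^ 2 := by norm_num
          _ ≤ 2 ^ (m + 2) := Nat.pow_le_pow_right (by norm_num) (by omega)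
      have h6 : C.card ^ 2 * 4 ≤ 2 ^ L := le_trans (Nat.mul_le_mul_left _ h5) hC
      omega
  obtain ⟨V, hV, hVΩ⟩ := hS U hU
  choose L C hC hVC using hV
  -- the sets of sums are open and cover
  have hcov : (univ : Set (ℕ → Bool)) ⊆ ⋃ m, {z | rs (L m) z ∈ xr (L m) (C m)} := by
    intro z _
    obtain ⟨x, hx, y, hy, hxy⟩ := hY z
    obtain ⟨_, ⟨m, rfl⟩, hm⟩ := hVΩ.2.2 {⟨x, hx⟩, ⟨y, hy⟩} (toFinite _)
    rw [hVC m] at hm
    refine mem_iUnion.2 ⟨m, Finset.mem_image.2 ⟨(rs (L m) x, rs (L m) y),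
      Finset.mem_product.2 ⟨hm (Or.inl rfl), hm (Or.inr rfl)⟩, ?_⟩⟩
    funext i
    rw [← hxy]
    rfl
  obtain ⟨t, ht⟩ := isCompact_univ.elim_finite_subcover _ (fun m =>
    (isOpen_discrete ((xr (L m) (C m) : Finset _) : Set (Fin (L m) → Bool))).preimage
      (continuous_rs (L m))) hcov
  obtain ⟨M, hM⟩ : ∃ M, ∀ m ∈ t, m < M := ⟨t.sup id + 1, fun m hm =>
    Nat.lt_succ_of_le (Finset.le_sup (f := id) hm)⟩
  -- a common length
  let K : ℕ := (Finset.range M).sup L
  have hK : ∀ m, m < M → L m ≤ K := fun m hm => Finset.le_sup (Finset.mem_range.2 hm)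
  let T : ℕ → Finset (Fin K → Bool) := fun m => Finset.univ.filter fun g =>
    ∃ h : L m ≤ K, (fun i : Fin (L m) => g (Fin.castLE h i)) ∈ xr (L m) (C m)
  have hT : ∀ m < M, (T m).card * 2 ^ (m + 2) ≤ 2 ^ K := by
    intro m hm
    have hKm := hK m hm
    obtain ⟨r, hr⟩ := Nat.exists_eq_add_of_le hKm
    have hinj : (T m).card ≤ (xr (L m) (C m) ×ˢ (Finset.univ : Finset (Fin r → Bool))).card := by
      refine Finset.card_le_card_of_injOn (fun g => (fun i : Fin (L m) => g (Fin.castLE hKm i),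
        fun i : Fin r => g ⟨L m + i, by omega⟩)) ?_ ?_
      · intro g hg
        obtain ⟨-, h, hg⟩ := Finset.mem_filter.1 hg
        exact Finset.mem_product.2 ⟨hg, Finset.mem_univ _⟩
      · intro g _ g' _ hgg
        obtain ⟨h1, h2⟩ := Prod.mk.inj hgg
        funext i
        by_cases hi : (i : ℕ) < L m
        · exact congrFun h1 ⟨i, hi⟩
        · have := congrFun h2 ⟨i - L m, by omega⟩
          simp only at this
          have e : (⟨L m + (i - L m), by omega⟩ : Fin K) = i := Fin.ext (by simp; omega)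
          rwa [e] at this
    rw [Finset.card_product, Finset.card_univ, Fintype.card_fun, Fintype.card_bool,
      Fintype.card_fin] at hinj
    calc (T m).card * 2 ^ (m + 2) ≤ ((xr (L m) (C m)).card * 2 ^ r) * 2 ^ (m + 2) := by gcongr
      _ ≤ ((C m).card ^ 2 * 2 ^ r) * 2 ^ (m + 2) := by
          have := hxr (L m) (C m)
          gcongr
      _ = ((C m).card ^ 2 * 2 ^ (m + 2)) * 2 ^ r := by ring
      _ ≤ 2 ^ (L m) * 2 ^ r := by
          have := hC m
          gcongr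
      _ = 2 ^ K := by rw [← pow_add, ← hr]
  have hall : (Finset.univ : Finset (Fin K → Bool)) ⊆ (Finset.range M).biUnion T := by
    intro g _
    obtain ⟨z, rfl⟩ := hlift K g
    obtain ⟨m, hm⟩ := mem_iUnion.1 (ht (mem_univ z))
    obtain ⟨hmt, hm⟩ := mem_iUnion.1 hm
    refine Finset.mem_biUnion.2 ⟨m, Finset.mem_range.2 (hM m hmt), ?_⟩
    exact Finset.mem_filter.2 ⟨Finset.mem_univ _, hK m (hM m hmt), hm⟩
  have hcard := (Finset.card_le_card hall).trans Finset.card_biUnion_le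
  rw [Finset.card_univ, Fintype.card_fun, Fintype.card_bool, Fintype.card_fin] at hcard
  -- compare in the reals
  have h1 : ((2 : ℝ) ^ K) ≤ ∑ m ∈ Finset.range M, ((T m).card : ℝ) := by exact_mod_cast hcard
  have h2 : ∀ m ∈ Finset.range M, ((T m).card : ℝ) ≤ 2 ^ K / 4 * (1 / 2) ^ m := by
    intro m hm
    have h3 : ((T m).card : ℝ) * 2 ^ (m + 2) ≤ 2 ^ K := by
      exact_mod_cast hT m (Finset.mem_range.1 hm)
    have h4 : (0 : ℝ) < 2 ^ (m + 2) := by positivity
    rw [← le_div_iff₀ h4] at h3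
    refine h3.trans (le_of_eq ?_)
    rw [pow_add, one_div, inv_pow]
    field_simp
    norm_num
  have h3 : ∑ m ∈ Finset.range M, ((T m).card : ℝ) ≤
      2 ^ K / 4 * ∑ m ∈ Finset.range M, (1 / 2 : ℝ) ^ m := by
    rw [Finset.mul_sum]
    exact Finset.sum_le_sum h2
  have h4 : ∑ m ∈ Finset.range M, (1 / 2 : ℝ) ^ m ≤ 2 := by
    rw [geom_sum_eq (by norm_num)]
    have : (0 : ℝ) < (1 / 2) ^ M := by positivity
    rw [div_le_iff_of_neg (by norm_num)]
    linarith
  have h5 : (0 : ℝ) < 2 ^ K := by positivity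
  nlinarith

end Pool.Agent.W636.OGp
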