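import Pool.Agent.Helper446.CB.Sem
import Pool.Agent.Helper446.CB.DefP

/-!
For a computable binary tree `T` we construct a `Π⁰₁` class `Q ⊇ [T]` in which all isolated points
of `[T]` stay isolated and which meets every cone that leaves `[T]` just below a splitting node.
-/

namespace Pool.Agent.W636.PiFin

open Pool.Agent.Helper446 Pool.Agent.Helper446.RE Pool.Agent.Helper446.Defs
  Pool.Agent.Helper446.CB

/-- `σ` has an extension by `j` bits in the tree. -/
def Al (T : Set (List Bool)) (j : ℕ) (σ : List Bool) : Prop :=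
  ∃ τ : List Bool, τ.length = j ∧ σ ++ τ ∈ T

variable {T : Set (List Bool)}

theorem Al.mono (hpre : ∀ σ τ : List Bool, σ <+: τ → τ ∈ T → σ ∈ T) {i j : ℕ} (h : i ≤ j)
    {σ : List Bool} (hj : Al T j σ) : Al T i σ := by
  obtain ⟨τ, rfl, hτ⟩ := hj
  refine ⟨τ.take i, by rw [List.length_take]; omega, hpre _ _ ?_ hτ⟩
  exact (List.prefix_append_right_inj _).2 (List.take_prefix _ _)

theorem Al.of_append {σ ρ : List Bool} {m : ℕ} (h : Al T m (σ ++ ρ)) :
    Al T (ρ.length + m) σ := by
  obtain ⟨τ, rfl, hτ⟩ := h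
  exact ⟨ρ ++ τ, by simp, by rwa [← List.append_assoc]⟩

theorem seg_append (x : ℕ → Bool) {m n : ℕ} (h : m ≤ n) :
    ∃ τ : List Bool, τ.length = n - m ∧ seg x n = seg x m ++ τ := by
  obtain ⟨τ, hτ⟩ := seg_prefix x h
  refine ⟨τ, ?_, hτ.symm⟩
  have := congrArg List.length hτ
  rw [List.length_append, seg_length, seg_length] at this
  omega

theorem ext_iff (hpre : ∀ σ τ : List Bool, σ <+: τ → τ ∈ T → σ ∈ T) {σ : List Bool} :
    σ ∈ Ext {x | ∀ n, seg x n ∈ T} ↔ ∀ j, Al T j σ := by
  constructor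
  · rintro ⟨x, hx, hσ⟩ j
    obtain ⟨τ, h1, h2⟩ := seg_append x (Nat.le_add_right σ.length j)
    refine ⟨τ, by omega, ?_⟩
    rw [← hσ, ← h2]
    exact hx _
  · intro h
    obtain ⟨x, hx, h1⟩ := exists_path hpre σ h
    exact ⟨x, hx, h1⟩

theorem al_re (hT : ComputablePred fun σ => σ ∈ T) :
    REPred fun x : List Bool × ℕ => Al T x.2 x.1 := by
  have h1 : REPred fun x : List Bool × ℕ => ∃ τ ∈ allStr x.2, x.1 ++ τ ∈ T := by
    refine ex_mem (p := fun (x : List Bool × ℕ) (τ : List Bool) => x.1 ++ τ ∈ T)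
      (l := fun x : List Bool × ℕ => allStr x.2) ?_ (allStr_comp.comp (by fun_prop))
    exact RE.comp hT.to_re (f := fun x : (List Bool × ℕ) × List Bool => x.1.1 ++ x.2)
      (by fun_prop)
  refine h1.of_eq fun x => ?_
  constructor
  · rintro ⟨τ, h2, h3⟩
    exact ⟨τ, mem_allStr.1 h2, h3⟩
  · rintro ⟨τ, h2, h3⟩
    exact ⟨τ, mem_allStr.2 h2, h3⟩

theorem nal_re (hT : ComputablePred fun σ => σ ∈ T) :
    REPred fun x : List Bool × ℕ => ¬ Al T x.2 x.1 := by
  have h1 : REPred fun x : List Bool × ℕ => ∀ τ ∈ allStr x.2, x.1 ++ τ ∉ T := by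
    refine all_mem (p := fun (x : List Bool × ℕ) (τ : List Bool) => x.1 ++ τ ∉ T)
      (l := fun x : List Bool × ℕ => allStr x.2) ?_ (allStr_comp.comp (by fun_prop))
    exact RE.comp hT.not.to_re (f := fun x : (List Bool × ℕ) × List Bool => x.1.1 ++ x.2)
      (by fun_prop)
  refine h1.of_eq fun x => ?_
  constructor
  · rintro h ⟨τ, h2, h3⟩
    exact h τ (mem_allStr.2 h2) h3
  · intro h τ h2 h3
    exact h ⟨τ, mem_allStr.1 h2, h3⟩

/-- The parent of a node. -/
def par (σ : List Bool) : List Bool := σ.take (σ.length - 1)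

theorem par_comp : Computable par := by
  unfold par
  exact ctake (by fun_prop) (Primrec.nat_sub.to_comp.comp (by fun_prop) (by fun_prop))

/-- The nodes that are removed. -/
def W (T : Set (List Bool)) : Set (List Bool) :=
  {σ | ∃ j, Al T (j + 2) (par σ) ∧ ¬ Al T (j + 1) σ ∧
    ∀ b : Bool, ¬ (Al T j (par σ ++ [b, false]) ∧ Al T j (par σ ++ [b, true]))}

theorem W_re (hT : ComputablePred fun σ => σ ∈ T) : REPred fun σ => σ ∈ W T := by
  have hp : Computable fun x : List Bool × ℕ => par x.1 := par_comp.comp (by fun_prop)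
  have hb : ∀ b c : Bool, Computable fun x : List Bool × ℕ => par x.1 ++ [b, c] := by
    intro b c
    exact Primrec.list_append.to_comp.comp hp (Computable.const _)
  have hA : ∀ b : Bool, REPred fun x : List Bool × ℕ =>
      ¬ (Al T x.2 (par x.1 ++ [b, false]) ∧ Al T x.2 (par x.1 ++ [b, true])) := by
    intro b
    refine (RE.or (RE.comp (nal_re hT) ((hb b false).pair Computable.snd))
      (RE.comp (nal_re hT) ((hb b true).pair Computable.snd))).of_eq fun x => ?_
    exact not_and_or.symm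
  have h1 : REPred fun x : List Bool × ℕ => Al T (x.2 + 2) (par x.1) ∧ ¬ Al T (x.2 + 1) x.1 ∧
      (¬ (Al T x.2 (par x.1 ++ [false, false]) ∧ Al T x.2 (par x.1 ++ [false, true])) ∧
       ¬ (Al T x.2 (par x.1 ++ [true, false]) ∧ Al T x.2 (par x.1 ++ [true, true]))) := by
    refine RE.and (RE.comp (al_re hT) (f := fun x : List Bool × ℕ => (par x.1, x.2 + 2))
      (hp.pair (by fun_prop))) (RE.and (RE.comp (nal_re hT)
        (f := fun x : List Bool × ℕ => (x.1, x.2 + 1)) (by fun_prop)) ?_)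
    exact RE.and (hA false) (hA true)
  refine (exN (p := fun (σ : List Bool) j => Al T (j + 2) (par σ) ∧ ¬ Al T (j + 1) σ ∧
      (¬ (Al T j (par σ ++ [false, false]) ∧ Al T j (par σ ++ [false, true])) ∧
       ¬ (Al T j (par σ ++ [true, false]) ∧ Al T j (par σ ++ [true, true])))) h1).of_eq ?_
  intro σ
  refine exists_congr fun j => ?_
  refine and_congr_right fun _ => and_congr_right fun _ => ?_
  exact (Bool.forall_bool (p := fun b => ¬ (Al T j (par σ ++ [b, false]) ∧
    Al T j (par σ ++ [b, true])))).symm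

/-- The larger class. -/
def QQ (T : Set (List Bool)) : Set (ℕ → Bool) := {x | ∀ n, seg x n ∉ W T}

theorem isPi01_QQ (hT : ComputablePred fun σ => σ ∈ T) : IsPi01 (QQ T) :=
  isPi01_iff.2 ⟨W T, W_re hT, rfl⟩

theorem par_seg_succ (x : ℕ → Bool) (n : ℕ) : par (seg x (n + 1)) = seg x n := by
  unfold par
  rw [seg_length, seg_take x (by omega)]
  rfl

theorem subset_QQ (hpre : ∀ σ τ : List Bool, σ <+: τ → τ ∈ T → σ ∈ T) :
    {x | ∀ n, seg x n ∈ T} ⊆ QQ T := by
  rintro x hx n ⟨j, -, h, -⟩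
  exact h ((ext_iff hpre).1 (seg_mem_ext hx n) _)

/-- Isolated points stay isolated. -/
theorem QQ_isolated (hpre : ∀ σ τ : List Bool, σ <+: τ → τ ∈ T → σ ∈ T) {a : ℕ → Bool}
    (ha : a ∈ {x | ∀ n, seg x n ∈ T}) {n : ℕ}
    (h : ∀ y ∈ {x | ∀ n, seg x n ∈ T}, seg y n = seg a n → y = a) :
    ∀ y ∈ QQ T, seg y n = seg a n → y = a := by
  classical
  set P : Set (ℕ → Bool) := {x | ∀ n, seg x n ∈ T} with hP
  intro y hy hya
  by_contra hne
  have hyP : y ∉ P := fun h1 => hne (h y h1 hya)
  have hcl : IsClosed P := isClosed_of_seg (fun σ => σ ∈ T)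
  have hex : ∃ k, seg y k ∉ Ext P := by
    by_contra hcon
    push Not at hcon
    exact hyP (mem_of_ext hcl hcon)
  obtain ⟨hk1, hk2⟩ := And.intro (Nat.find_spec hex) (fun m => Nat.find_min hex (m := m))
  set k := Nat.find hex
  have hnk : n < k := by
    by_contra hcon
    push Not at hcon
    apply hk1
    have h1 : seg y k = seg a k := seg_mono_eq hya hcon
    rw [h1]
    exact seg_mem_ext ha k
  obtain ⟨m, hm⟩ : ∃ m, k = m + 1 := ⟨k - 1, by omega⟩
  have hmE : seg y m ∈ Ext P := by
    have := hk2 m (by omega)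
    rwa [not_not] at this
  -- at most one of the two grandchildren is extendible
  have hone : ∀ b : Bool, ¬ (seg y m ++ [b, false] ∈ Ext P ∧ seg y m ++ [b, true] ∈ Ext P) := by
    rintro b ⟨⟨u, hu, hu2⟩, v, hv, hv2⟩
    have hu3 : seg u (m + 2) = seg y m ++ [b, false] := by
      simpa using hu2
    have hv3 : seg v (m + 2) = seg y m ++ [b, true] := by
      simpa using hv2
    have hu4 : seg u m = seg y m := by
      have := congrArg (List.take m) hu3
      rwa [seg_take u (by omega), List.take_append_of_le_length (by simp), List.take_of_length_le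
        (by simp)] at this
    have hv4 : seg v m = seg y m := by
      have := congrArg (List.take m) hv3
      rwa [seg_take v (by omega), List.take_append_of_le_length (by simp), List.take_of_length_le
        (by simp)] at this
    have hua : u = a := h u hu ((seg_mono_eq hu4 (by omega)).trans hya)
    have hva : v = a := h v hv ((seg_mono_eq hv4 (by omega)).trans hya)
    rw [hua] at hu3
    rw [hva, hu3] at hv3
    simp at hv3
  have hfin : ∀ σ : List Bool, σ ∉ Ext P → ∃ j, ¬ Al T j σ := by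
    intro σ hσ
    by_contra hcon
    push Not at hcon
    exact hσ ((ext_iff hpre).2 hcon)
  have hb : ∀ b : Bool, ∃ j, ∀ i, j ≤ i → ¬ (Al T i (seg y m ++ [b, false]) ∧
      Al T i (seg y m ++ [b, true])) := by
    intro b
    rcases not_and_or.1 (hone b) with h1 | h1
    · obtain ⟨j, hj⟩ := hfin _ h1
      exact ⟨j, fun i hi h2 => hj (h2.1.mono hpre hi)⟩
    · obtain ⟨j, hj⟩ := hfin _ h1
      exact ⟨j, fun i hi h2 => hj (h2.2.mono hpre hi)⟩
  obtain ⟨j0, hj0⟩ := hb false
  obtain ⟨j1, hj1⟩ := hb true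
  obtain ⟨j2, hj2⟩ := hfin _ hk1
  apply hy k
  rw [hm]
  refine ⟨max j0 (max j1 j2), ?_, ?_, ?_⟩
  · rw [par_seg_succ]
    exact (ext_iff hpre).1 hmE _
  · rw [← hm]
    exact fun h2 => hj2 (h2.mono hpre (by omega))
  · rw [par_seg_succ]
    intro b
    cases b
    · exact hj0 _ (by omega)
    · exact hj1 _ (by omega)

/-- The point `ξ 0 0 0 …`. -/
def pad (ξ : List Bool) : ℕ → Bool := fun i => (ξ[i]?).getD false

theorem seg_pad {ξ : List Bool} {n : ℕ} (h : n ≤ ξ.length) : seg (pad ξ) n = ξ.take n := by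
  apply List.ext_getElem?
  intro i
  by_cases hi : i < n
  · rw [seg_getElem? _ hi, List.getElem?_take_of_lt hi]
    unfold pad
    rw [List.getElem?_eq_getElem (by omega)]
    rfl
  · rw [List.getElem?_eq_none (by rw [seg_length]; omega),
      List.getElem?_eq_none (by rw [List.length_take]; omega)]

theorem QQ_meets (hpre : ∀ σ τ : List Bool, σ <+: τ → τ ∈ T → σ ∈ T) {ρ : List Bool} {c : Bool}
    (hc : ρ ++ [c] ∉ Ext {x | ∀ n, seg x n ∈ T})
    (h : ∀ d, ρ ++ [!c, d] ∈ Ext {x | ∀ n, seg x n ∈ T}) :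
    ∃ x ∈ QQ T, seg x (ρ.length + 1) = ρ ++ [c] := by
  classical
  set P : Set (ℕ → Bool) := {x | ∀ n, seg x n ∈ T} with hP
  have hρ : ρ ∈ Ext P := ext_prefix (List.prefix_append _ _) (h false)
  have hex : ∃ s, ¬ Al T s (ρ ++ [c]) := by
    by_contra hcon
    push Not at hcon
    exact hc ((ext_iff hpre).2 hcon)
  obtain ⟨hs1, hs2⟩ := And.intro (Nat.find_spec hex) (fun m => Nat.find_min hex (m := m))
  set s := Nat.find hex
  -- choose a longest alive extension of `ρ c`
  obtain ⟨ξ, hξ1, hξ2, hξ3⟩ : ∃ ξ : List Bool, ρ ++ [c] <+: ξ ∧ ρ.length + 1 + s ≤ ξ.length + 1 ∧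
      (0 < s → ξ ∈ T) := by
    rcases Nat.eq_zero_or_pos s with h0 | h0
    · exact ⟨ρ ++ [c], List.prefix_rfl, by simp [h0], fun h => by omega⟩
    · have := hs2 (s - 1) (by omega)
      rw [not_not] at this
      obtain ⟨η, h1, h2⟩ := this
      exact ⟨ρ ++ [c] ++ η, List.prefix_append _ _, by simp; omega, fun _ => h2⟩
  have hlen : ρ.length + 1 ≤ ξ.length := by
    have := hξ1.length_le
    simpa using this
  have htake : ξ.take (ρ.length + 1) = ρ ++ [c] := by
    have := List.prefix_iff_eq_take.1 hξ1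
    rw [List.length_append, List.length_singleton] at this
    exact this.symm
  have hseg : seg (pad ξ) (ρ.length + 1) = ρ ++ [c] := by
    rw [seg_pad hlen, htake]
  refine ⟨pad ξ, ?_, hseg⟩
  rintro n ⟨j, h1, h2, h3⟩
  rcases Nat.lt_trichotomy n (ρ.length + 1) with hn | hn | hn
  · apply h2
    have h4 : seg (pad ξ) n = ρ.take n := by
      have : seg (pad ξ) n = (seg (pad ξ) (ρ.length + 1)).take n := by
        rw [seg_take _ (by omega)]
      rw [this, hseg, List.take_append_of_le_length (by omega)]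
    rw [h4]
    exact (ext_iff hpre).1 (ext_prefix (List.take_prefix _ _) hρ) _
  · subst hn
    rw [par_seg_succ] at h3
    have h4 : seg (pad ξ) ρ.length = ρ := by
      have : seg (pad ξ) ρ.length = (seg (pad ξ) (ρ.length + 1)).take ρ.length := by
        rw [seg_take _ (by omega)]
      rw [this, hseg, List.take_append_of_le_length le_rfl, List.take_of_length_le le_rfl]
    rw [h4] at h3
    exact h3 (!c) ⟨(ext_iff hpre).1 (h false) _, (ext_iff hpre).1 (h true) _⟩
  · obtain ⟨m, rfl⟩ : ∃ m, n = m + 1 := ⟨n - 1, by omega⟩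
    rw [par_seg_succ] at h1
    obtain ⟨τ, hτ1, hτ2⟩ := seg_append (pad ξ) (show ρ.length + 1 ≤ m by omega)
    rw [hτ2, hseg] at h1
    have h4 := h1.of_append
    have h5 : τ.length + (j + 2) < s := by
      by_contra hcon
      push Not at hcon
      exact hs1 (h4.mono hpre hcon)
    apply h2
    have h6 : m + 1 + (j + 1) ≤ ξ.length := by omega
    refine ⟨(ξ.take (m + 1 + (j + 1))).drop (m + 1), ?_, ?_⟩
    · rw [List.length_drop, List.length_take]
      omega
    · have h7 : seg (pad ξ) (m + 1) = (ξ.take (m + 1 + (j + 1))).take (m + 1) := by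
        rw [seg_pad (by omega), List.take_take]
        congr 1
        omega
      rw [h7, List.take_append_drop]
      exact hpre _ _ (List.take_prefix _ _) (hξ3 (by omega))

end Pool.Agent.W636.PiFin
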