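import Pool.Agent.W636.PiFin

/-!
A first-order characterisation of the finite classes in the lattice of `Π⁰₁` classes.
-/

namespace Pool.Agent.W636.PiFin

open Pool.Agent.Helper446 Pool.Agent.Helper446.RE Pool.Agent.Helper446.Defs
  Pool.Agent.Helper446.CB

/-- `q` has a complement inside `p` in the lattice of `Π⁰₁` classes. -/
def RelCompl (q p : EPi) : Prop :=
  ∃ r : EPi, r ≤ p ∧ (∀ z : EPi, z ≤ q → z ≤ r → ∀ w : EPi, z ≤ w) ∧
    ∀ z : EPi, q ≤ z → r ≤ z → p ≤ z

/-- `a` is an atom of the lattice of `Π⁰₁` classes. -/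
def Atom (a : EPi) : Prop :=
  (¬ ∀ w : EPi, a ≤ w) ∧ ∀ z : EPi, z ≤ a → (¬ ∀ w : EPi, z ≤ w) → a ≤ z

/-- The condition characterising the finite classes. -/
def FinCond (p : EPi) : Prop :=
  (∀ q : EPi, q ≤ p → RelCompl q p) ∧
  (∀ q : EPi, q ≤ p → (¬ ∀ w : EPi, q ≤ w) → ∃ a : EPi, Atom a ∧ a ≤ q) ∧
  ∀ q : EPi, p ≤ q → (∀ a : EPi, Atom a → a ≤ p → RelCompl a q) → RelCompl p q

theorem isBot_iff {z : EPi} : (∀ w : EPi, z ≤ w) ↔ z.1 = ∅ := by
  constructor
  · intro h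
    exact Set.subset_eq_empty (h ⟨∅, IsPi01.empty⟩) rfl
  · intro h x
    show z.1 ⊆ x.1
    rw [h]
    exact Set.empty_subset _

theorem relCompl_iff {q p : EPi} (h : q ≤ p) : RelCompl q p ↔ IsClosed (p.1 \ q.1) := by
  constructor
  · rintro ⟨r, h1, h2, h3⟩
    have h4 : q.1 ∩ r.1 = ∅ := by
      have := h2 ⟨q.1 ∩ r.1, IsPi01.inter q.2 r.2⟩ Set.inter_subset_left Set.inter_subset_right
      exact isBot_iff.1 this
    have h5 : p.1 ⊆ q.1 ∪ r.1 := h3 ⟨q.1 ∪ r.1, IsPi01.union q.2 r.2⟩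
      Set.subset_union_left Set.subset_union_right
    have h6 : p.1 \ q.1 = r.1 := by
      ext x
      constructor
      · rintro ⟨hx1, hx2⟩
        exact (h5 hx1).resolve_left hx2
      · intro hx
        refine ⟨h1 hx, fun hq => ?_⟩
        have : x ∈ q.1 ∩ r.1 := ⟨hq, hx⟩
        rw [h4] at this
        exact this
    rw [h6]
    exact IsPi01.isClosed r.2
  · intro hc
    obtain ⟨U, hU, h1, h2⟩ := exists_sep hc (IsPi01.isClosed q.2) (by
      rw [Set.eq_empty_iff_forall_notMem]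
      rintro x ⟨⟨_, h3⟩, h4⟩
      exact h3 h4)
    rw [Set.eq_empty_iff_forall_notMem] at h2
    refine ⟨⟨p.1 ∩ U, IsPi01.inter p.2 (IsPi01.of_clopen hU)⟩, Set.inter_subset_left, ?_, ?_⟩
    · intro z hz1 hz2
      rw [isBot_iff, Set.eq_empty_iff_forall_notMem]
      intro x hx
      exact h2 x ⟨(hz2 hx).2, hz1 hx⟩
    · intro z hz1 hz2 x hx
      by_cases hxq : x ∈ q.1
      · exact hz1 hxq
      · exact hz2 ⟨hx, h1 ⟨hx, hxq⟩⟩

theorem eq_of_seg {x y : ℕ → Bool} (h : ∀ n, seg x n = seg y n) : x = y := by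
  funext i
  exact seg_eq_iff.1 (h (i + 1)) i (by omega)

theorem atom_iff {a : EPi} : Atom a ↔ ∃ x, a.1 = {x} := by
  unfold Atom
  rw [isBot_iff]
  constructor
  · rintro ⟨h1, h2⟩
    obtain ⟨x, hx⟩ := Set.nonempty_iff_ne_empty.2 h1
    refine ⟨x, Set.eq_singleton_iff_unique_mem.2 ⟨hx, fun y hy => ?_⟩⟩
    refine eq_of_seg fun n => ?_
    have h3 := h2 ⟨a.1 ∩ cyl (seg x n), IsPi01.inter a.2 (IsPi01.of_clopen (isClopen_cyl _))⟩
      Set.inter_subset_left (by
        rw [isBot_iff]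
        exact Set.nonempty_iff_ne_empty.1 ⟨x, hx, self_mem_cyl x n⟩)
    exact mem_cyl_seg.1 (h3 hy).2
  · rintro ⟨x, hx⟩
    refine ⟨by rw [hx]; exact Set.singleton_ne_empty x, fun z hz hne => ?_⟩
    rw [isBot_iff] at hne
    obtain ⟨y, hy⟩ := Set.nonempty_iff_ne_empty.2 hne
    have h3 : y ∈ a.1 := hz hy
    rw [hx, Set.mem_singleton_iff] at h3
    intro w hw
    change w ∈ a.1 at hw
    rw [hx, Set.mem_singleton_iff] at hw
    rw [hw, ← h3]
    exact hy

theorem isolated_iff {P : Set (ℕ → Bool)} (hP : IsClosed P) {x : ℕ → Bool} :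
    IsClosed (P \ {x}) ↔ ∃ n, ∀ y ∈ P, seg y n = seg x n → y = x := by
  constructor
  · intro h
    obtain ⟨n, hn⟩ := isOpen_iff.1 h.isOpen_compl x (fun h2 => h2.2 rfl)
    refine ⟨n, fun y hy hyx => ?_⟩
    by_contra hne
    exact hn (mem_cyl_seg.2 hyx) ⟨hy, hne⟩
  · rintro ⟨n, hn⟩
    have h1 : P \ {x} = P ∩ (cyl (seg x n))ᶜ := by
      ext y
      constructor
      · rintro ⟨hy, hne⟩
        exact ⟨hy, fun h2 => hne (hn y hy (mem_cyl_seg.1 h2))⟩
      · rintro ⟨hy, hne⟩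
        refine ⟨hy, fun h2 => hne ?_⟩
        rw [Set.mem_singleton_iff] at h2
        rw [h2]
        exact self_mem_cyl x n
    rw [h1]
    exact hP.inter (isClopen_cyl _).compl.isClosed

/-- A subset of a class with closed complement inside the class, and itself closed, is a class. -/
theorem isPi01_of_split {P A : Set (ℕ → Bool)} (hP : IsPi01 P) (hA : IsClosed A) (hAP : A ⊆ P)
    (hc : IsClosed (P \ A)) : IsPi01 A := by
  obtain ⟨U, hU, h1, h2⟩ := exists_sep hA hc (by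
    rw [Set.eq_empty_iff_forall_notMem]
    rintro x ⟨h3, _, h4⟩
    exact h4 h3)
  rw [Set.eq_empty_iff_forall_notMem] at h2
  have : A = P ∩ U := by
    ext x
    constructor
    · intro hx
      exact ⟨hAP hx, h1 hx⟩
    · rintro ⟨hx, hxU⟩
      by_contra hxA
      exact h2 x ⟨hxU, hx, hxA⟩
  rw [this]
  exact IsPi01.inter hP (IsPi01.of_clopen hU)

theorem finCond_of_finite {P : EPi} (h : P.1.Finite) : FinCond P := by
  have hsub : ∀ A ⊆ P.1, IsPi01 A := by
    intro A hA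
    exact isPi01_of_split P.2 (h.subset hA).isClosed hA (h.subset Set.sdiff_subset).isClosed
  refine ⟨fun q hq => ?_, fun q hq hne => ?_, fun q hq hatom => ?_⟩
  · rw [relCompl_iff hq]
    exact (h.subset Set.sdiff_subset).isClosed
  · rw [isBot_iff] at hne
    obtain ⟨x, hx⟩ := Set.nonempty_iff_ne_empty.2 hne
    refine ⟨⟨{x}, hsub _ (Set.singleton_subset_iff.2 (hq hx))⟩, atom_iff.2 ⟨x, rfl⟩, ?_⟩
    exact Set.singleton_subset_iff.2 hx
  · rw [relCompl_iff hq]
    have h1 : q.1 \ P.1 = q.1 ∩ ⋂ x ∈ P.1, (q.1 \ {x}) := by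
      ext y
      simp only [Set.mem_sdiff, Set.mem_inter_iff, Set.mem_iInter, Set.mem_singleton_iff]
      constructor
      · rintro ⟨hy, hyP⟩
        exact ⟨hy, fun x hx => ⟨hy, fun hyx => hyP (by rw [hyx]; exact hx)⟩⟩
      · rintro ⟨hy, hyx⟩
        exact ⟨hy, fun hyP => (hyx y hyP).2 rfl⟩
    rw [h1]
    refine (IsPi01.isClosed q.2).inter (isClosed_biInter fun x hx => ?_)
    have hxP : ({x} : Set (ℕ → Bool)) ⊆ P.1 := Set.singleton_subset_iff.2 hx
    have h2 := hatom ⟨{x}, hsub _ hxP⟩ (atom_iff.2 ⟨x, rfl⟩) hxP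
    rwa [relCompl_iff (hxP.trans hq)] at h2

theorem ext_re {T : Set (List Bool)} (hT : ComputablePred fun σ => σ ∈ T)
    (hpre : ∀ σ τ : List Bool, σ <+: τ → τ ∈ T → σ ∈ T) :
    REPred fun σ => σ ∉ Ext {x | ∀ n, seg x n ∈ T} := by
  refine (exN (p := fun (σ : List Bool) j => ¬ Al T j σ) (nal_re hT)).of_eq fun σ => ?_
  rw [ext_iff hpre]
  push Not
  rfl

/-- The class of points all of whose initial segments of length at least `N` are splitting. -/
def PS (P : Set (ℕ → Bool)) (N : ℕ) : Set (ℕ → Bool) :=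
  {x | ∀ n, N ≤ n → seg x n ++ [false] ∈ Ext P ∧ seg x n ++ [true] ∈ Ext P}

theorem isPi01_PS {P : Set (ℕ → Bool)} (hP : IsPi01 P) (N : ℕ) : IsPi01 (PS P N) := by
  obtain ⟨T, hT, hpre, rfl⟩ := hP
  rw [isPi01_iff]
  refine ⟨{σ | N ≤ σ.length ∧ (σ ++ [false] ∉ Ext {x | ∀ n, seg x n ∈ T} ∨
    σ ++ [true] ∉ Ext {x | ∀ n, seg x n ∈ T})}, ?_, ?_⟩
  · have hb : ∀ b : Bool, Computable fun σ : List Bool => σ ++ [b] := by
      intro b
      exact Primrec.list_append.to_comp.comp Computable.id (Computable.const _)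
    exact RE.and (RE.le (by fun_prop) (by fun_prop))
      (RE.or (RE.comp (ext_re hT hpre) (hb false)) (RE.comp (ext_re hT hpre) (hb true)))
  · ext x
    simp only [PS, Set.mem_ofPred_eq, seg_length]
    refine forall_congr' fun n => ?_
    tauto

theorem PS_subset {P : Set (ℕ → Bool)} (hP : IsClosed P) (N : ℕ) : PS P N ⊆ P := by
  intro x hx
  refine mem_of_ext hP fun n => ?_
  have h1 : seg x (max n N) ∈ Ext P :=
    ext_prefix (List.prefix_append _ _) (hx (max n N) (le_max_right _ _)).1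
  exact ext_prefix (seg_prefix x (le_max_left _ _)) h1

/-- The key combinatorial fact: many gaps just below splitting nodes. -/
theorem exists_gap {P : EPi} (h1 : ∀ q : EPi, q ≤ P → RelCompl q P)
    (h2 : ∀ q : EPi, q ≤ P → (¬ ∀ w : EPi, q ≤ w) → ∃ a : EPi, Atom a ∧ a ≤ q)
    (hinf : ¬ P.1.Finite) (N : ℕ) : ∃ ρ : List Bool, ∃ c : Bool, N ≤ ρ.length ∧
      ρ ++ [c] ∉ Ext P.1 ∧ ∀ d, ρ ++ [!c, d] ∈ Ext P.1 := by
  by_contra hcon
  push Not at hcon
  apply hinf
  have hcl : IsClosed P.1 := IsPi01.isClosed P.2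
  have hsub := PS_subset hcl N
  have hclD : IsClosed (P.1 \ PS P.1 N) :=
    (relCompl_iff (q := ⟨PS P.1 N, isPi01_PS P.2 N⟩) hsub).1 (h1 _ hsub)
  -- points outside `PS` are isolated
  have hiso : ∀ x ∈ P.1 \ PS P.1 N, ∃ n, ∀ y ∈ P.1, seg y n = seg x n → y = x := by
    rintro x ⟨hx, hxS⟩
    have h3 : ∃ n, N ≤ n ∧ ∃ c : Bool, seg x n ++ [c] ∉ Ext P.1 := by
      by_contra hcon2
      push Not at hcon2
      exact hxS fun n hn => ⟨hcon2 n hn _, hcon2 n hn _⟩
    obtain ⟨n, hn, hc⟩ := h3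
    have h4 : ∀ m, n ≤ m → ∃ c : Bool, seg x m ++ [c] ∉ Ext P.1 := by
      intro m hm
      induction m, hm using Nat.le_induction with
      | base => exact hc
      | succ m hm ih =>
        obtain ⟨c, hc⟩ := ih
        have hxm : x m = !c := by
          by_contra hne
          have : x m = c := by
            cases hh : x m <;> cases c <;> simp_all
          apply hc
          rw [← this, ← seg_succ]
          exact seg_mem_ext hx _
        obtain ⟨d, hd⟩ := hcon (seg x m) c (by rw [seg_length]; omega) hc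
        refine ⟨d, ?_⟩
        rw [seg_succ, hxm, List.append_assoc]
        exact hd
    refine ⟨n, fun y hy hyx => ?_⟩
    have h5 : ∀ m, n ≤ m → seg y m = seg x m := by
      intro m hm
      induction m, hm using Nat.le_induction with
      | base => exact hyx
      | succ m hm ih =>
        obtain ⟨c, hc⟩ := h4 m hm
        have hxm : x m ≠ c := by
          rintro rfl
          apply hc
          rw [← seg_succ]
          exact seg_mem_ext hx _
        have hym : y m ≠ c := by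
          rintro rfl
          apply hc
          rw [← ih, ← seg_succ]
          exact seg_mem_ext hy _
        have : y m = x m := by
          cases hh : x m <;> cases hh2 : y m <;> cases c <;> simp_all
        rw [seg_succ, seg_succ, ih, this]
    refine eq_of_seg fun m => ?_
    have := h5 (max n m) (le_max_left _ _)
    exact seg_mono_eq this (le_max_right _ _)
  -- hence there are finitely many
  have hfin : (P.1 \ PS P.1 N).Finite := by
    choose! f hf using hiso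
    obtain ⟨t, ht1, ht2⟩ := hclD.isCompact.elim_nhds_subcover (fun x => cyl (seg x (f x)))
      (fun x _ => (isClopen_cyl _).isOpen.mem_nhds (self_mem_cyl x _))
    refine t.finite_toSet.subset fun x hx => ?_
    obtain ⟨y, hy, hxy⟩ := Set.mem_iUnion₂.1 (ht2 hx)
    have := hf y (ht1 y hy) x hx.1 (mem_cyl_seg.1 hxy)
    rw [this]
    exact hy
  -- and `PS` is empty
  have hemp : PS P.1 N = ∅ := by
    by_contra hne
    obtain ⟨a, ha, haS⟩ := h2 ⟨PS P.1 N, isPi01_PS P.2 N⟩ hsub (by rw [isBot_iff]; exact hne)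
    obtain ⟨x, hx⟩ := atom_iff.1 ha
    have hxS : x ∈ PS P.1 N := haS (by rw [hx]; rfl)
    have haP : a ≤ P := haS.trans hsub
    have h3 := (relCompl_iff haP).1 (h1 a haP)
    rw [hx, isolated_iff hcl] at h3
    obtain ⟨n, hn⟩ := h3
    obtain ⟨⟨u, hu, hu2⟩, v, hv, hv2⟩ := hxS (max n N) (le_max_right _ _)
    rw [List.length_append, seg_length, List.length_singleton, seg_succ] at hu2 hv2
    obtain ⟨hu3, hu4⟩ := List.append_inj hu2 (by simp)
    obtain ⟨hv3, hv4⟩ := List.append_inj hv2 (by simp)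
    have hux := hn u hu (seg_mono_eq hu3 (le_max_left _ _))
    have hvx := hn v hv (seg_mono_eq hv3 (le_max_left _ _))
    rw [hux] at hu4
    rw [hvx, hu4] at hv4
    simp at hv4
  rw [hemp, Set.sdiff_empty] at hfin
  exact hfin

theorem finite_of_finCond {P : EPi} (h : FinCond P) : P.1.Finite := by
  obtain ⟨h1, h2, h3⟩ := h
  by_contra hinf
  have hgap := exists_gap h1 h2 hinf
  obtain ⟨P, T, hT, hpre, rfl⟩ := P
  set P : Set (ℕ → Bool) := {x | ∀ n, seg x n ∈ T} with hP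
  have hcl : IsClosed P := isClosed_of_seg (fun σ => σ ∈ T)
  have hPP : IsPi01 P := ⟨T, hT, hpre, rfl⟩
  let Q : EPi := ⟨QQ T, isPi01_QQ hT⟩
  have hPQ : (⟨P, hPP⟩ : EPi) ≤ Q := subset_QQ hpre
  have hQcl : IsClosed (QQ T) := IsPi01.isClosed (isPi01_QQ hT)
  have h4 : RelCompl ⟨P, hPP⟩ Q := by
    refine h3 Q hPQ fun a ha haP => ?_
    rw [relCompl_iff (haP.trans hPQ)]
    have h5 := (relCompl_iff haP).1 (h1 a haP)
    obtain ⟨x, hx⟩ := atom_iff.1 ha
    rw [hx] at h5 ⊢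
    rw [isolated_iff hQcl]
    obtain ⟨n, hn⟩ := (isolated_iff hcl).1 h5
    have hxP : x ∈ P := haP (by rw [hx]; rfl)
    exact ⟨n, QQ_isolated hpre hxP hn⟩
  rw [relCompl_iff hPQ] at h4
  obtain ⟨U, hU, h6, h7⟩ := exists_sep h4 hcl (by
    rw [Set.eq_empty_iff_forall_notMem]
    rintro x ⟨⟨_, h8⟩, h9⟩
    exact h8 h9)
  rw [Set.eq_empty_iff_forall_notMem] at h7
  obtain ⟨n, hn⟩ := clopen_iff.1 hU
  obtain ⟨ρ, c, hρ, hc, hd⟩ := hgap n
  obtain ⟨x, hx, hx2⟩ := QQ_meets hpre hc hd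
  have hxP : x ∉ P := by
    intro h8
    apply hc
    rw [← hx2]
    exact seg_mem_ext h8 _
  obtain ⟨y, hy, hy2⟩ := hd false
  have h8 : seg y n = seg x n := by
    have h9 : seg y ρ.length = ρ := by
      have h10 := congrArg (List.take ρ.length) hy2
      rwa [seg_take y (by simp), List.take_append_of_le_length le_rfl,
        List.take_of_length_le le_rfl] at h10
    have h11 : seg x ρ.length = ρ := by
      have h10 := congrArg (List.take ρ.length) hx2
      rwa [seg_take x (by omega), List.take_append_of_le_length le_rfl,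
        List.take_of_length_le le_rfl] at h10
    exact seg_mono_eq (h9.trans h11.symm) hρ
  exact h7 y ⟨(hn y x h8).2 (h6 ⟨hx, hxP⟩), hy⟩

theorem finite_iff {P : EPi} : P.1.Finite ↔ FinCond P :=
  ⟨finCond_of_finite, finite_of_finCond⟩

/-! ### Definability -/

theorem defBot : Def1 fun P => ∀ w : EPi, P ≤ w := by
  intro Γ i
  exact DefP.all (R := fun v (x : EPi) => v i ≤ x) (DefP.le _ _)

theorem defRelCompl : Def2 RelCompl := by
  intro Γ i j
  unfold RelCompl
  refine DefP.ex (R := fun (v : Γ → EPi) (r : EPi) => r ≤ v j ∧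
    (∀ z : EPi, z ≤ v i → z ≤ r → ∀ w : EPi, z ≤ w) ∧
    ∀ z : EPi, v i ≤ z → r ≤ z → v j ≤ z) ?_
  refine (DefP.le _ _).and (DefP.and ?_ ?_)
  · refine DefP.all (R := fun (v : Γ ⊕ Unit → EPi) (z : EPi) => z ≤ v (Sum.inl i) →
      z ≤ v (Sum.inr ()) → ∀ w : EPi, z ≤ w) ?_
    exact (DefP.le _ _).imp ((DefP.le _ _).imp (defBot _))
  · refine DefP.all (R := fun (v : Γ ⊕ Unit → EPi) (z : EPi) => v (Sum.inl i) ≤ z →
      v (Sum.inr ()) ≤ z → v (Sum.inl j) ≤ z) ?_
    exact (DefP.le _ _).imp ((DefP.le _ _).imp (DefP.le _ _))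

theorem defAtom : Def1 Atom := by
  intro Γ i
  unfold Atom
  refine (defBot i).not.and ?_
  refine DefP.all (R := fun (v : Γ → EPi) (z : EPi) => z ≤ v i → (¬ ∀ w : EPi, z ≤ w) →
    v i ≤ z) ?_
  exact (DefP.le _ _).imp ((defBot _).not.imp (DefP.le _ _))

theorem defFinCond : Def1 FinCond := by
  intro Γ i
  unfold FinCond
  refine DefP.and ?_ (DefP.and ?_ ?_)
  · refine DefP.all (R := fun (v : Γ → EPi) (q : EPi) => q ≤ v i → RelCompl q (v i)) ?_
    exact (DefP.le _ _).imp (defRelCompl _ _)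
  · refine DefP.all (R := fun (v : Γ → EPi) (q : EPi) => q ≤ v i → (¬ ∀ w : EPi, q ≤ w) →
      ∃ a : EPi, Atom a ∧ a ≤ q) ?_
    refine (DefP.le _ _).imp ((defBot _).not.imp ?_)
    refine DefP.ex (R := fun (v : Γ ⊕ Unit → EPi) (a : EPi) => Atom a ∧ a ≤ v (Sum.inr ())) ?_
    exact (defAtom _).and (DefP.le _ _)
  · refine DefP.all (R := fun (v : Γ → EPi) (q : EPi) => v i ≤ q →
      (∀ a : EPi, Atom a → a ≤ v i → RelCompl a q) → RelCompl (v i) q) ?_
    refine (DefP.le _ _).imp (DefP.imp ?_ (defRelCompl _ _))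
    refine DefP.all (R := fun (v : Γ ⊕ Unit → EPi) (a : EPi) => Atom a → a ≤ v (Sum.inl i) →
      RelCompl a (v (Sum.inr ()))) ?_
    exact (defAtom _).imp ((DefP.le _ _).imp (defRelCompl _ _))

theorem defFinite : Def1 fun P => P.1.Finite := by
  intro Γ i
  exact (defFinCond i).of_iff fun v => finite_iff.symm

theorem defMinimal : Def1 fun P => ¬ P.1.Finite ∧
    ∀ Q : EPi, Q ≤ P → Q.1.Finite ∨ (P.1 \ Q.1).Finite := by
  intro Γ i
  refine (defFinite i).not.and ?_
  refine DefP.of_iff (R := fun v : Γ → EPi => ∀ Q : EPi, Q ≤ v i → Q.1.Finite ∨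
    ∃ F : EPi, F.1.Finite ∧ ∀ z : EPi, Q ≤ z → F ≤ z → v i ≤ z) ?_ fun v => ?_
  · refine DefP.all (R := fun (v : Γ → EPi) (Q : EPi) => Q ≤ v i → Q.1.Finite ∨
      ∃ F : EPi, F.1.Finite ∧ ∀ z : EPi, Q ≤ z → F ≤ z → v i ≤ z) ?_
    refine (DefP.le _ _).imp (DefP.or (defFinite _) ?_)
    refine DefP.ex (R := fun (v : Γ ⊕ Unit → EPi) (F : EPi) => F.1.Finite ∧
      ∀ z : EPi, v (Sum.inr ()) ≤ z → F ≤ z → v (Sum.inl i) ≤ z) ?_
    refine (defFinite _).and ?_
    refine DefP.all (R := fun (v : (Γ ⊕ Unit) ⊕ Unit → EPi) (z : EPi) =>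
      v (Sum.inl (Sum.inr ())) ≤ z → v (Sum.inr ()) ≤ z → v (Sum.inl (Sum.inl i)) ≤ z) ?_
    exact (DefP.le _ _).imp ((DefP.le _ _).imp (DefP.le _ _))
  · refine forall_congr' fun Q => imp_congr_right fun hQ => or_congr_right ?_
    constructor
    · rintro ⟨F, hF, h⟩
      refine hF.subset ?_
      rintro x ⟨hx, hxQ⟩
      have h1 := h ⟨Q.1 ∪ F.1, IsPi01.union Q.2 F.2⟩ Set.subset_union_left
        Set.subset_union_right hx
      exact h1.resolve_left hxQ
    · intro h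
      have hd : (v i).1 \ ((v i).1 \ Q.1) = Q.1 := by
        rw [Set.sdiff_sdiff_cancel_left hQ]
      refine ⟨⟨(v i).1 \ Q.1, isPi01_of_split (v i).2 h.isClosed Set.sdiff_subset ?_⟩, h, ?_⟩
      · rw [hd]
        exact IsPi01.isClosed Q.2
      · intro z hz1 hz2 x hx
        by_cases hxQ : x ∈ Q.1
        · exact hz1 hxQ
        · exact hz2 ⟨hx, hxQ⟩

end Pool.Agent.W636.PiFin
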