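import Pool.Agent.Helper185.PolUp
import Pool.Agent.Helper185.SelDefs2

/-!
The splitting property `Split(Ω, Λ)`: its critical cardinality is the ultrafilter number and its
additivity number is at most the cofinality of the ultrafilter number.
-/

set_option autoImplicit false

namespace Pool.Agent.W636.SplitU

open Set Filter Pool.Agent.Helper185 Pool.Agent.Helper185.Sel Pool.Agent.Helper185.Pol
open scoped Cardinal

/-- The large covers of `X` in the class `G`: covers such that each point lies in infinitely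
many members. -/
def LambdaOf {X : Type*} (G : Set (Set (Set X))) : Set (Set (Set X)) :=
  {U | U ∈ G ∧ IsCov U ∧ ∀ x, {u | u ∈ U ∧ x ∈ u}.Infinite}

/-- the sets of reals with the property `Split(Ω, Λ)` -/
def SplitOL (X : Set ℝ) : Prop := SplitP (OmegaOf (OpenFam X)) (LambdaOf (OpenFam X))

/-- the additivity number of the family of the sets of reals with `Split(Ω, Λ)` -/
noncomputable def addSplitOL : Cardinal.{0} :=
  sInf {κ | ∃ F : Set (Set ℝ), Cardinal.mk F = κ ∧ (∀ Y ∈ F, SplitOL Y) ∧ ¬ SplitOL (⋃₀ F)}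

/-- spaces of cardinality less than the ultrafilter number have `Split(Ω, Λ)` -/
theorem split_small {X : Type} [TopologicalSpace X] [SecondCountableTopology X]
    (hu : Cardinal.mk X < uNumber) : SplitP (OmegaOf (OpenFam X)) (LambdaOf (OpenFam X)) := by
  classical
  intro U hU
  have hXinf : Infinite X := by
    by_contra hcon
    rw [not_infinite_iff_finite] at hcon
    obtain ⟨u, hu, hF⟩ := hU.2.2 univ finite_univ
    exact hU.2.1.2 (univ_subset_iff.1 hF ▸ hu)
  obtain ⟨V, hVU, hVc, hVω⟩ := Sierp.exists_countable_omega hU.1 hU.2.2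
  have hVne : univ ∉ V := fun h => hU.2.1.2 (hVU h)
  have hVinf : ∀ F : Set X, F.Finite → {u | u ∈ V ∧ F ⊆ u}.Infinite := by
    intro F hF hfin
    have hw : ∀ u : Set X, ∃ z, u ∈ V → z ∉ u := by
      intro u
      by_cases hu : u ∈ V
      · have h3 : u ≠ univ := fun h => hVne (h ▸ hu)
        obtain ⟨z, hz⟩ := (ne_univ_iff_exists_notMem _).1 h3
        exact ⟨z, fun _ => hz⟩
      · exact ⟨Classical.arbitrary X, fun h => absurd h hu⟩
    choose z hz using hw
    obtain ⟨u, hu, hFu⟩ := hVω (F ∪ z '' {u | u ∈ V ∧ F ⊆ u}) (hF.union (hfin.image z))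
    exact hz u hu (hFu (Or.inr ⟨u, ⟨hu, subset_union_left.trans hFu⟩, rfl⟩))
  have hV0 : V.Infinite := (hVinf ∅ finite_empty).mono (fun u hu => hu.1)
  -- an injective enumeration of `V`
  obtain ⟨a, ha, haV⟩ : ∃ a : ℕ → Set X, Function.Injective a ∧ range a = V := by
    have h1 : Countable V := hVc
    have h2 : Infinite V := hV0.to_subtype
    obtain ⟨e⟩ := nonempty_equiv_of_countable (α := ℕ) (β := V)
    refine ⟨fun n => (e n).1, fun n m h => e.injective (Subtype.ext h), ?_⟩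
    ext u
    constructor
    · rintro ⟨n, rfl⟩
      exact (e n).2
    · intro hu
      exact ⟨e.symm ⟨u, hu⟩, by simp⟩
  let N : X → Set ℕ := fun x => {n | x ∈ a n}
  have hNinf : ∀ F : Set X, F.Finite → (⋂ x ∈ F, N x).Infinite := by
    intro F hF hfin
    apply hVinf F hF
    apply (hfin.image a).subset
    rintro u ⟨hu, hFu⟩
    rw [← haV] at hu
    obtain ⟨n, rfl⟩ := hu
    exact ⟨n, mem_iInter₂.2 (fun x hx => hFu hx), rfl⟩
  -- the key point
  obtain ⟨A, hA⟩ : ∃ A : Set ℕ, ∀ x, (A ∩ N x).Infinite ∧ (Aᶜ ∩ N x).Infinite := by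
    by_contra hcon
    push Not at hcon
    let B : Set (Set ℕ) := range (fun w : Finset X × ℕ => (⋂ x ∈ w.1, N x) \ {n | n < w.2})
    have hBinf : ∀ b ∈ B, b.Infinite := by
      rintro _ ⟨w, rfl⟩
      exact (hNinf _ w.1.finite_toSet).sdiff (finite_lt_nat w.2)
    have hBinter : ∀ b ∈ B, ∀ b' ∈ B, ∃ c ∈ B, c ⊆ b ∩ b' := by
      rintro _ ⟨w, rfl⟩ _ ⟨w', rfl⟩
      refine ⟨_, ⟨(w.1 ∪ w'.1, max w.2 w'.2), rfl⟩, ?_⟩
      intro n hn
      simp only [Finset.mem_union, Set.mem_sdiff, mem_iInter, mem_ofPred_eq, not_lt, mem_inter_iff]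
        at hn ⊢
      exact ⟨⟨fun x hx => hn.1 x (Or.inl hx), (le_max_left _ _).trans hn.2⟩,
        ⟨fun x hx => hn.1 x (Or.inr hx), (le_max_right _ _).trans hn.2⟩⟩
    let f : Filter ℕ :=
      { sets := {A | ∃ b ∈ B, b ⊆ A}
        univ_sets := ⟨_, ⟨(∅, 0), rfl⟩, subset_univ _⟩
        sets_of_superset := fun ⟨b, hb, hbA⟩ hAA' => ⟨b, hb, hbA.trans hAA'⟩
        inter_sets := fun {A A'} ⟨b, hb, hbA⟩ ⟨b', hb', hbA'⟩ => by
          obtain ⟨c, hc, hcb⟩ := hBinter b hb b' hb'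
          exact ⟨c, hc, hcb.trans (inter_subset_inter hbA hbA')⟩ }
    have hf : ∀ A : Set ℕ, A ∈ f ↔ ∃ b ∈ B, b ⊆ A := fun A => Iff.rfl
    have hdec : ∀ A : Set ℕ, Aᶜ ∉ f ↔ A ∈ f := by
      intro A
      constructor
      · intro hA
        obtain ⟨x, hx⟩ := hcon A
        by_cases h1 : (A ∩ N x).Infinite
        · have h2 := hx h1
          obtain ⟨M, hM⟩ := h2.bddAbove
          rw [hf]
          refine ⟨_, ⟨({x}, M + 1), rfl⟩, ?_⟩
          intro n hn
          simp only [Finset.mem_singleton, iInter_iInter_eq_left, Set.mem_sdiff, mem_ofPred_eq,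
            not_lt] at hn
          by_contra h3
          have := hM ⟨h3, hn.1⟩
          omega
        · exfalso
          apply hA
          rw [not_infinite] at h1
          obtain ⟨M, hM⟩ := h1.bddAbove
          rw [hf]
          refine ⟨_, ⟨({x}, M + 1), rfl⟩, ?_⟩
          intro n hn
          simp only [Finset.mem_singleton, iInter_iInter_eq_left, Set.mem_sdiff, mem_ofPred_eq,
            not_lt] at hn
          intro h3
          have := hM ⟨h3, hn.1⟩
          omega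
      · rintro ⟨b, hb, hbA⟩ ⟨b', hb', hbA'⟩
        obtain ⟨c, hc, hcb⟩ := hBinter b hb b' hb'
        obtain ⟨n, hn⟩ := (hBinf c hc).nonempty
        exact hbA' (hcb hn).2 (hbA (hcb hn).1)
    let p : Ultrafilter ℕ := Ultrafilter.ofComplNotMemIff f hdec
    have hp : ∀ A : Set ℕ, A ∈ p ↔ ∃ b ∈ B, b ⊆ A := fun A => Iff.rfl
    have h1 : uNumber ≤ Cardinal.mk B := by
      apply csInf_le'
      refine ⟨p, B, rfl, ?_, fun b hb => (hp b).2 ⟨b, hb, subset_rfl⟩, fun A hA => (hp A).1 hA⟩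
      intro A hA
      rw [mem_cofinite] at hA
      obtain ⟨M, hM⟩ := hA.bddAbove
      change A ∈ p
      rw [hp]
      refine ⟨_, ⟨(∅, M + 1), rfl⟩, ?_⟩
      intro n hn
      by_contra h3
      have := hM (show n ∈ Aᶜ from h3)
      have h4 : ¬ n < M + 1 := hn.2
      omega
    have h2 : Cardinal.mk B ≤ Cardinal.mk X := by
      refine Cardinal.mk_range_le.trans ?_
      rw [Cardinal.mk_prod, Cardinal.lift_id, Cardinal.lift_id, Cardinal.mk_finset_of_infinite X,
        Cardinal.mk_nat]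
      exact (Cardinal.mul_eq_left (Cardinal.aleph0_le_mk X) (Cardinal.aleph0_le_mk X)
        Cardinal.aleph0_ne_zero).le
    exact absurd (h1.trans h2) (not_le.2 hu)
  have hlarge : ∀ C : Set ℕ, (∀ x, (C ∩ N x).Infinite) → a '' C ∈ LambdaOf (OpenFam X) := by
    intro C hC
    have hsub : a '' C ⊆ V := by
      rintro _ ⟨n, _, rfl⟩
      rw [← haV]
      exact mem_range_self n
    have hinf : ∀ x, {u | u ∈ a '' C ∧ x ∈ u}.Infinite := by
      intro x
      apply ((hC x).image ha.injOn).mono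
      rintro _ ⟨n, ⟨hn, hx⟩, rfl⟩
      exact ⟨⟨n, hn, rfl⟩, hx⟩
    refine ⟨fun u hu => hU.1 u (hVU (hsub hu)), ⟨?_, fun h => hVne (hsub h)⟩, hinf⟩
    rw [eq_univ_iff_forall]
    intro x
    obtain ⟨u, hu, hx⟩ := (hinf x).nonempty
    exact ⟨u, hu, hx⟩
  have hsubU : ∀ C : Set ℕ, a '' C ⊆ U := by
    rintro C _ ⟨n, _, rfl⟩
    apply hVU
    rw [← haV]
    exact mem_range_self n
  refine ⟨a '' A, U \ a '' A, union_sdiff_cancel (hsubU A), disjoint_sdiff_right,
    ⟨a '' A, subset_rfl, hlarge A (fun x => (hA x).1)⟩,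
    ⟨a '' Aᶜ, ?_, hlarge Aᶜ (fun x => (hA x).2)⟩⟩
  rintro _ ⟨n, hn, rfl⟩
  refine ⟨hsubU Aᶜ ⟨n, hn, rfl⟩, ?_⟩
  rintro ⟨m, hm, hmn⟩
  rw [ha hmn] at hm
  exact hn hm

/-- a space that carries a base of a nonprincipal ultrafilter does not have `Split(Ω, Λ)` -/
theorem not_split_ultra {X : Type} [TopologicalSpace X] {b : X → Set ℕ}
    (hb : ∀ n, IsOpen {x | n ∈ b x}) {p : Ultrafilter ℕ}
    (hbp : ∀ x, b x ∈ p) (hbase : ∀ A ∈ p, ∃ x, b x ⊆ A)
    (hsep : ∀ n m, n ≠ m → ∃ x, n ∉ b x ∧ m ∈ b x) :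
    ¬ SplitP (OmegaOf (OpenFam X)) (LambdaOf (OpenFam X)) := by
  classical
  intro h
  let C : ℕ → Set X := fun n => {x | n ∈ b x}
  have hinj : Function.Injective C := by
    intro n m hnm
    by_contra hne
    obtain ⟨x, h1, h2⟩ := hsep n m hne
    have h3 : x ∈ C m := h2
    rw [← hnm] at h3
    exact h1 h3
  have hU : range C ∈ OmegaOf (OpenFam X) := by
    apply omega_of
    · rintro _ ⟨n, rfl⟩
      exact hb n
    · rintro ⟨n, hn⟩
      obtain ⟨x, h1, -⟩ := hsep n (n + 1) (by omega)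
      have h2 : x ∈ C n := by rw [hn]; trivial
      exact h1 h2
    · intro F hF
      have h1 : (⋂ x ∈ F, b x) ∈ p := (Filter.biInter_mem hF).2 (fun x _ => hbp x)
      obtain ⟨n, hn⟩ := (p.neBot.nonempty_of_mem h1)
      refine ⟨C n, mem_range_self n, fun x hx => ?_⟩
      exact mem_iInter₂.1 hn x hx
  obtain ⟨V, W, hVW, hdisj, ⟨V', hV'V, hV'⟩, W', hW'W, hW'⟩ := h _ hU
  have key : ∀ V W V' : Set (Set X), Disjoint V W → V' ⊆ V → V' ∈ LambdaOf (OpenFam X) →
      V ⊆ range C → {n | C n ∈ W} ∉ p := by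
    intro V W V' hd hV'V hV' hVC hW
    obtain ⟨x, hx⟩ := hbase _ hW
    obtain ⟨u, hu, hxu⟩ := (hV'.2.2 x).nonempty
    obtain ⟨n, rfl⟩ := hVC (hV'V hu)
    exact (Set.disjoint_left.1 hd (hV'V hu)) (hx hxu)
  have h1 := key V W V' hdisj hV'V hV' (hVW ▸ subset_union_left)
  have h2 := key W V W' hdisj.symm hW'W hW' (hVW ▸ subset_union_right)
  apply h2
  have h3 := Ultrafilter.compl_mem_iff_notMem.2 h1
  refine p.sets_of_superset h3 ?_
  intro n hn
  have h4 : C n ∈ V ∪ W := by rw [hVW]; exact mem_range_self n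
  rcases h4 with h4 | h4
  · exact h4
  · exact absurd h4 hn

/-- there is a set of reals of the size of the ultrafilter number without `Split(Ω, Λ)` -/
theorem exists_not_split : ∃ X : Set ℝ, Cardinal.mk X = uNumber ∧ ¬ SplitOL X := by
  classical
  have hne : {κ : Cardinal.{0} | ∃ (p : Ultrafilter ℕ) (B : Set (Set ℕ)), Cardinal.mk B = κ ∧
    (p : Filter ℕ) ≤ cofinite ∧ (∀ b ∈ B, b ∈ p) ∧ ∀ A ∈ p, ∃ b ∈ B, b ⊆ A}.Nonempty :=
    ⟨_, hyperfilter ℕ, {A | A ∈ hyperfilter ℕ}, rfl, Filter.hyperfilter_le_cofinite, fun _ h => h,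
      fun A hA => ⟨A, hA, subset_rfl⟩⟩
  obtain ⟨p, B₀, hB₀, hp, hB₀p, hbase₀⟩ := csInf_mem hne
  have hcof : ∀ n : ℕ, ({n} : Set ℕ)ᶜ ∈ p := fun n =>
    hp (by rw [mem_cofinite, compl_compl]; exact finite_singleton n)
  -- the base is infinite
  have hB₀inf : B₀.Infinite := by
    intro hfin
    have h1 : ⋂₀ B₀ ∈ p := (Filter.sInter_mem hfin).2 (fun b hb => hB₀p b hb)
    obtain ⟨n, hn⟩ := p.neBot.nonempty_of_mem h1
    obtain ⟨b, hb, hbn⟩ := hbase₀ _ (hcof n)
    exact hbn (hn b hb) rfl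
  let B : Set (Set ℕ) := B₀ ∪ range (fun n : ℕ => ({n} : Set ℕ)ᶜ)
  have hB : Cardinal.mk B = uNumber := by
    have h0 : Cardinal.mk B₀ = uNumber := hB₀
    have h1 : ℵ₀ ≤ Cardinal.mk B₀ := by
      rw [Cardinal.infinite_iff.symm]
      exact hB₀inf.to_subtype
    apply le_antisymm
    · refine (Cardinal.mk_union_le _ _).trans ?_
      rw [← h0]
      refine (Cardinal.add_le_max _ _).trans (max_le (max_le le_rfl ?_) h1)
      exact Cardinal.mk_range_le.trans (by rw [Cardinal.mk_nat]; exact h1)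
    · rw [← h0]
      exact Cardinal.mk_le_mk_of_subset subset_union_left
  have hBp : ∀ b ∈ B, b ∈ p := by
    rintro b (hb | ⟨n, rfl⟩)
    · exact hB₀p b hb
    · exact hcof n
  have hbase : ∀ A ∈ p, ∃ b ∈ B, b ⊆ A := by
    intro A hA
    obtain ⟨b, hb, hbA⟩ := hbase₀ A hA
    exact ⟨b, Or.inl hb, hbA⟩
  obtain ⟨g, hg⟩ := Silver.exists_embedding_Z
  let χ : Set ℕ → Silver.Z := fun A n => decide (n ∈ A)
  have hχ : Function.Injective χ := by
    intro A A' h
    ext n
    have h1 := congrFun h n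
    simp only [χ, decide_eq_decide] at h1
    exact h1
  obtain ⟨e⟩ := Silver.homeo_image hg (χ '' B)
  refine ⟨g '' (χ '' B), ?_, ?_⟩
  · rw [Cardinal.mk_image_eq hg.injective, Cardinal.mk_image_eq hχ]
    exact hB
  · have hval : ∀ x : (g '' (χ '' B) : Set ℝ), ∃ A ∈ B, {n | (e.symm x : Silver.Z) n = true} = A := by
      intro x
      obtain ⟨A, hA, hAx⟩ := (e.symm x).2
      refine ⟨A, hA, ?_⟩
      ext n
      rw [← hAx]
      simp [χ]
    have hval2 : ∀ A ∈ B, ∃ x : (g '' (χ '' B) : Set ℝ),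
        {n | (e.symm x : Silver.Z) n = true} = A := by
      intro b hb
      refine ⟨e ⟨χ b, b, hb, rfl⟩, ?_⟩
      ext n
      rw [Homeomorph.symm_apply_apply]
      simp [χ]
    apply not_split_ultra (X := (g '' (χ '' B) : Set ℝ))
      (b := fun x => {n | (e.symm x : Silver.Z) n = true}) (p := p) ?_ ?_ ?_ ?_
    · intro n
      have h1 : Continuous (fun x : (g '' (χ '' B) : Set ℝ) => (e.symm x : Silver.Z) n) :=
        (continuous_apply n).comp (continuous_subtype_val.comp e.symm.continuous)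
      exact (isOpen_discrete ({true} : Set Bool)).preimage h1
    · intro x
      obtain ⟨A, hA, hAx⟩ := hval x
      rw [hAx]
      exact hBp A hA
    · intro A hA
      obtain ⟨b, hb, hbA⟩ := hbase A hA
      obtain ⟨x, hx⟩ := hval2 b hb
      exact ⟨x, by rw [hx]; exact hbA⟩
    · intro n m hnm
      obtain ⟨x, hx⟩ := hval2 ({n} : Set ℕ)ᶜ (Or.inr ⟨n, rfl⟩)
      refine ⟨x, ?_, ?_⟩
      · rw [hx]
        simp
      · rw [hx]
        simp only [mem_compl_iff, mem_singleton_iff]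
        exact fun h => hnm h.symm

/-- finite sets have `Split(Ω, Λ)` (they have no omega-covers) -/
theorem split_finite {X : Set ℝ} (h : X.Finite) : SplitOL X := by
  intro U hU
  exfalso
  have : Finite X := h.to_subtype
  obtain ⟨u, hu, hF⟩ := hU.2.2 univ finite_univ
  exact hU.2.1.2 (univ_subset_iff.1 hF ▸ hu)

theorem aleph0_le_u : ℵ₀ ≤ uNumber := by
  obtain ⟨X, hX, hns⟩ := exists_not_split
  rw [← hX]
  by_contra hcon
  rw [not_le, Cardinal.lt_aleph0_iff_set_finite] at hcon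
  exact hns (split_finite hcon)

/-- the union of few sets of reals with `Split(Ω, Λ)` may fail to have `Split(Ω, Λ)` -/
theorem exists_family : ∃ F : Set (Set ℝ), Cardinal.mk F ≤ uNumber.ord.cof ∧
    (∀ Y ∈ F, SplitOL Y) ∧ ¬ SplitOL (⋃₀ F) := by
  classical
  obtain ⟨X, hX, hns⟩ := exists_not_split
  have h1 : Cardinal.mk uNumber.ord.ToType = Cardinal.mk X := by
    rw [Cardinal.mk_ord_toType, hX]
  obtain ⟨e⟩ := Cardinal.eq.1 h1
  obtain ⟨s, hs, hsc⟩ := Order.exists_cof_eq uNumber.ord.ToType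
  rw [Ordinal.cof_toType] at hsc
  let Y : uNumber.ord.ToType → Set ℝ := fun i => (fun j => (e j : ℝ)) '' Iic i
  have hY : ⋃₀ (Y '' s) = X := by
    ext y
    constructor
    · rintro ⟨_, ⟨i, _, rfl⟩, j, _, rfl⟩
      exact (e j).2
    · intro hy
      obtain ⟨i, hi, hji⟩ := hs (e.symm ⟨y, hy⟩)
      exact ⟨_, ⟨i, hi, rfl⟩, e.symm ⟨y, hy⟩, hji, by simp⟩
  refine ⟨Y '' s, Cardinal.mk_image_le.trans hsc.le, ?_, by rw [hY]; exact hns⟩
  rintro _ ⟨i, _, rfl⟩
  apply split_small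
  refine Cardinal.mk_image_le.trans_lt ?_
  have h2 : Iic i = Iio i ∪ {i} := by
    ext j
    simp [le_iff_lt_or_eq]
  rw [h2]
  refine (Cardinal.mk_union_le _ _).trans_lt ?_
  apply Cardinal.add_lt_of_lt aleph0_le_u
  · have h3 := Cardinal.mk_Iio_lt i (by simp)
    rwa [Cardinal.mk_ord_toType] at h3
  · rw [Cardinal.mk_singleton]
    exact Cardinal.one_lt_aleph0.trans_le aleph0_le_u

theorem add_le : addSplitOL ≤ uNumber.ord.cof := by
  obtain ⟨F, hF, h1, h2⟩ := exists_family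
  refine le_trans (csInf_le' ?_) hF
  exact ⟨F, rfl, h1, h2⟩

end Pool.Agent.W636.SplitU
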