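import Pool.Agent.W792.WA.Stm
import Pool.Agent.W918.LL.Opr
import Pool.Agent.W792.LL.Dia
import Pool.Agent.W335.LLCay

/-!
Analytic dependence on the symbol (part HOLC of the project WA).
-/

namespace Pool.Agent.W636.WAHolc

open MeasureTheory Filter Pool.Agent.W792.LL Pool.Agent.W792.WA
open scoped Topology

noncomputable section

/-- Differentiation of the average of a bounded family of analytic functions. -/
theorem dint {Ω : Type} [MeasurableSpace Ω] (P : Measure Ω) [IsProbabilityMeasure P] (O : Set ℂ)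
    (hO : IsOpen O) (C : ℝ) (F : ℂ → Ω → ℂ) (hm : ∀ t ∈ O, Measurable (F t))
    (hb : ∀ t ∈ O, ∀ ω, ‖F t ω‖ ≤ C) (hd : ∀ ω, DifferentiableOn ℂ (fun t => F t ω) O) :
    DifferentiableOn ℂ (fun t => ∫ ω, F t ω ∂P) O := by
  intro t₀ ht₀
  obtain ⟨r, hr, hball⟩ := Metric.isOpen_iff.1 hO t₀ ht₀
  have hr2 : 0 < r / 2 := by positivity
  have hr4 : 0 < r / 4 := by positivity
  have hcl : ∀ t ∈ Metric.ball t₀ (r / 2), Metric.closedBall t (r / 4) ⊆ O := by
    intro t ht z hz
    apply hball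
    rw [Metric.mem_ball] at ht ⊢
    rw [Metric.mem_closedBall] at hz
    linarith [dist_triangle z t t₀]
  have hmem : ∀ t ∈ Metric.ball t₀ (r / 2), t ∈ O := fun t ht =>
    hcl t ht (Metric.mem_closedBall_self hr4.le)
  have hda : ∀ ω, ∀ t ∈ Metric.ball t₀ (r / 2), HasDerivAt (fun t => F t ω)
      (deriv (fun t => F t ω) t) t := by
    intro ω t ht
    exact ((hd ω).differentiableAt (hO.mem_nhds (hmem t ht))).hasDerivAt
  have hbd : ∀ ω, ∀ t ∈ Metric.ball t₀ (r / 2), ‖deriv (fun t => F t ω) t‖ ≤ C / (r / 4) := by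
    intro ω t ht
    apply Complex.norm_deriv_le_of_forall_mem_sphere_norm_le hr4
    · refine DifferentiableOn.diffContOnCl ?_
      rw [closure_ball _ hr4.ne']
      exact (hd ω).mono (hcl t ht)
    · intro z hz
      exact hb z (hcl t ht (Metric.sphere_subset_closedBall hz)) ω
  have hmd : Measurable (fun ω => deriv (fun t => F t ω) t₀) := by
    have hs : Tendsto (fun n : ℕ => t₀ + ((r / 4 / ((n : ℝ) + 1) : ℝ) : ℂ)) atTop (𝓝[≠] t₀) := by
      rw [tendsto_nhdsWithin_iff]
      constructor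
      · have h1 : Tendsto (fun n : ℕ => (r / 4 / ((n : ℝ) + 1) : ℝ)) atTop (𝓝 0) :=
          tendsto_const_nhds.div_atTop (tendsto_atTop_add_const_right _ _
            tendsto_natCast_atTop_atTop)
        have h2 : Tendsto (fun n : ℕ => ((r / 4 / ((n : ℝ) + 1) : ℝ) : ℂ)) atTop (𝓝 ((0 : ℝ) : ℂ)) :=
          (Complex.continuous_ofReal.tendsto 0).comp h1
        have h3 := (tendsto_const_nhds (x := t₀)).add h2
        simpa using h3
      · refine Eventually.of_forall fun n => ?_
        have : (r / 4 / ((n : ℝ) + 1) : ℝ) ≠ 0 := by positivity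
        simp only [Set.mem_compl_iff, Set.mem_singleton_iff]
        intro h
        apply this
        have h4 : ((r / 4 / ((n : ℝ) + 1) : ℝ) : ℂ) = 0 := by
          have := congrArg (fun z => z - t₀) h
          simpa using this
        exact_mod_cast h4
    refine measurable_of_tendsto_metrizable (f := fun (n : ℕ) ω =>
      slope (fun t => F t ω) t₀ (t₀ + ((r / 4 / ((n : ℝ) + 1) : ℝ) : ℂ))) ?_ ?_
    · intro n
      simp only [slope, vsub_eq_sub, smul_eq_mul]
      have hmem2 : (t₀ + ((r / 4 / ((n : ℝ) + 1) : ℝ) : ℂ)) ∈ O := by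
        apply hcl t₀ (Metric.mem_ball_self hr2)
        rw [Metric.mem_closedBall, dist_eq_norm, add_sub_cancel_left, Complex.norm_real,
          Real.norm_of_nonneg (by positivity)]
        apply div_le_self hr4.le
        have : (0 : ℝ) ≤ (n : ℝ) := Nat.cast_nonneg n
        linarith
      have h1 := hm _ hmem2
      have h2 := hm _ ht₀
      exact (h1.sub h2).const_mul _
    · rw [tendsto_pi_nhds]
      intro ω
      have h1 := hasDerivAt_iff_tendsto_slope.1 (hda ω t₀ (Metric.mem_ball_self hr2))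
      exact h1.comp hs
  have key := hasDerivAt_integral_of_dominated_loc_of_deriv_le (μ := P) (𝕜 := ℂ)
    (F := F) (F' := fun t ω => deriv (fun t => F t ω) t) (x₀ := t₀)
    (s := Metric.ball t₀ (r / 2)) (bound := fun _ => C / (r / 4))
    (Metric.ball_mem_nhds t₀ hr2)
    (by
      filter_upwards [Metric.ball_mem_nhds t₀ hr2] with t ht
      exact (hm t (hmem t ht)).aestronglyMeasurable)
    (Integrable.of_bound (hm t₀ ht₀).aestronglyMeasurable C (Eventually.of_forall (hb t₀ ht₀)))
    hmd.aestronglyMeasurable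
    (Eventually.of_forall fun ω t ht => hbd ω t ht)
    (integrable_const _)
    (Eventually.of_forall fun ω t ht => hda ω t ht)
  exact key.2.differentiableAt.differentiableWithinAt

/-- The operators with continuous symbols as a bounded linear map. -/
def oprL (d : ℕ) : C(UnitAddTorus (Fin d), ℂ) →L[ℂ]
    (l2 (Fin d → ℤ) →L[ℂ] l2 (Fin d → ℤ)) :=
  LinearMap.mkContinuous
    { toFun := fun m => opr m
      map_add' := fun a b => (Pool.Agent.W918.LL.main d a b).2.2.2.1
      map_smul' := fun a b => (Pool.Agent.W918.LL.main d b b).2.2.2.2.1 a } 1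
    (fun m => by
      rw [one_mul]
      exact (Pool.Agent.W918.LL.main d m m).2.1)

theorem oprL_apply {d : ℕ} (m : C(UnitAddTorus (Fin d), ℂ)) : oprL d m = opr m := rfl

/-- Coordinates. -/
def cx {d : ℕ} (x : Fin d → ℤ) : l2 (Fin d → ℤ) →L[ℂ] ℂ := innerSL ℂ (dl x)

theorem cx_apply {d : ℕ} (x : Fin d → ℤ) (u : l2 (Fin d → ℤ)) : cx x u = u x := by
  unfold cx dl
  rw [innerSL_apply_apply, lp.inner_single_left]
  simp

theorem nx {d : ℕ} (x : Fin d → ℤ) (u : l2 (Fin d → ℤ)) : ‖u x‖ ≤ ‖u‖ :=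
  lp.norm_apply_le_norm (by norm_num) u x

theorem dcn {d : ℕ} (v : (Fin d → ℤ) → ℝ) : ‖dc v‖ ≤ 1 := by
  unfold dc
  exact (Pool.Agent.W792.LL.DiaP.main _ _
    (fun x => (Pool.Agent.W335.LLCay.main.1 (v x)).le)).2

/-- The resolvent is analytic. -/
theorem drsv (hC : S_CSYM) (ν : Measure ℝ) [IsProbabilityMeasure ν] {d : ℕ} (O : Set ℂ)
    (m : ℂ → C(UnitAddTorus (Fin d), ℂ)) (hO : IsOpen O) (hd : DifferentiableOn ℂ m O)
    (hm : ∀ t ∈ O, ‖m t‖ < 1) (v : (Fin d → ℤ) → ℝ) :
    DifferentiableOn ℂ (fun t => rsv (m t) v) O := by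
  intro t ht
  have h1 : DifferentiableAt ℂ m t := hd.differentiableAt (hO.mem_nhds ht)
  have h2 : DifferentiableAt ℂ (fun t => 1 - opr (m t) * dc v) t := by
    have h3 : DifferentiableAt ℂ (fun t => oprL d (m t)) t :=
      (oprL d).differentiableAt.comp t h1
    exact (h3.mul_const (dc v)).const_sub 1
  have h4 := ((hC ν d (m t) (hm t ht)).1 v)
  have h5 : IsUnit (1 - opr (m t) * dc v) :=
    ⟨⟨1 - opr (m t) * dc v, rsv (m t) v, h4.2.1, h4.2.2⟩, rfl⟩
  obtain ⟨U, hU⟩ := h5
  have h6 : DifferentiableAt ℂ (Ring.inverse : (l2 (Fin d → ℤ) →L[ℂ] l2 (Fin d → ℤ)) → _)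
      (1 - opr (m t) * dc v) := by
    rw [← hU]
    exact differentiableAt_inverse (𝕜 := ℂ) U.isUnit
  have h7 := h6.comp t h2
  exact h7.differentiableWithinAt

/-- Norm from finitely supported test vectors. -/
theorem norming {d : ℕ} (y : l2 (Fin d → ℤ)) (c : ℝ) (hc : 0 ≤ c)
    (h : ∀ (s : Finset (Fin d → ℤ)) (a : (Fin d → ℤ) → ℂ),
      ‖∑ x ∈ s, a x • dl x‖ ≤ 1 → ‖inner ℂ (∑ x ∈ s, a x • dl x) y‖ ≤ c) : ‖y‖ ≤ c := by
  have h1 : HasSum (fun i => lp.single 2 i (y i)) y := lp.hasSum_single (by norm_num) y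
  have h2 : Tendsto (fun s : Finset (Fin d → ℤ) => ‖∑ x ∈ s, lp.single 2 x (y x)‖) atTop
      (𝓝 ‖y‖) := h1.norm
  refine le_of_tendsto h2 (Eventually.of_forall fun s => ?_)
  have e0 : ∀ x, (lp.single 2 x (y x) : l2 (Fin d → ℤ)) = y x • dl x := by
    intro x
    unfold dl
    rw [← lp.single_smul]
    simp
  set w : l2 (Fin d → ℤ) := ∑ x ∈ s, lp.single 2 x (y x) with hw
  have hw' : w = ∑ x ∈ s, y x • dl x := by
    rw [hw]
    exact Finset.sum_congr rfl fun x _ => e0 x
  have hin : ∀ z : l2 (Fin d → ℤ), inner ℂ w z = ∑ x ∈ s, (starRingEnd ℂ) (y x) * z x := by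
    intro z
    rw [hw', sum_inner]
    refine Finset.sum_congr rfl fun x _ => ?_
    rw [inner_smul_left]
    have := cx_apply x z
    unfold cx at this
    rw [innerSL_apply_apply] at this
    rw [this]
  have hwx : ∀ x ∈ s, w x = y x := by
    intro x hx
    rw [← cx_apply, hw', map_sum]
    have : ∀ z ∈ s, cx x (y z • dl z) = if z = x then y x else 0 := by
      intro z _
      rw [map_smul, cx_apply]
      unfold dl
      rw [lp.single_apply]
      by_cases hzx : z = x
      · subst hzx; simp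
      · rw [Pi.single_eq_of_ne (Ne.symm hzx)]
        simp [hzx]
    rw [Finset.sum_congr rfl this]
    simp [hx]
  have hww : inner ℂ w y = inner ℂ w w := by
    rw [hin, hin]
    exact Finset.sum_congr rfl fun x hx => by rw [hwx x hx]
  have hsq : ‖(inner ℂ w y : ℂ)‖ = ‖w‖ ^ 2 := by
    rw [hww, inner_self_eq_norm_sq_to_K]
    simp
  by_cases hw0 : ‖w‖ = 0
  · rw [hw0]; exact hc
  have hwpos : 0 < ‖w‖ := lt_of_le_of_ne (norm_nonneg _) (Ne.symm hw0)
  have h3 := h s (fun x => ((‖w‖⁻¹ : ℝ) : ℂ) * y x) (by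
    have : ∑ x ∈ s, (((‖w‖⁻¹ : ℝ) : ℂ) * y x) • dl x = ((‖w‖⁻¹ : ℝ) : ℂ) • w := by
      rw [hw', Finset.smul_sum]
      exact Finset.sum_congr rfl fun x _ => by rw [mul_smul]
    rw [this, norm_smul, Complex.norm_real, Real.norm_of_nonneg (by positivity)]
    rw [inv_mul_cancel₀ hw0])
  have h4 : ∑ x ∈ s, (((‖w‖⁻¹ : ℝ) : ℂ) * y x) • dl x = ((‖w‖⁻¹ : ℝ) : ℂ) • w := by
    rw [hw', Finset.smul_sum]
    exact Finset.sum_congr rfl fun x _ => by rw [mul_smul]
  rw [h4, inner_smul_left, norm_mul, hsq] at h3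
  simp only [Complex.conj_ofReal, Complex.norm_real] at h3
  rw [Real.norm_of_nonneg (by positivity)] at h3
  have : ‖w‖⁻¹ * ‖w‖ ^ 2 = ‖w‖ := by field_simp
  rwa [this] at h3

theorem main : S_SYMB → S_CSYM → S_PSI → S_HOLP → S_HOLC := by
  intro hY hC hP hH ν _ d O m q hO hq hd hmq
  by_cases hq0 : 0 ≤ q
  swap
  · have hOe : O = ∅ := by
      rw [Set.eq_empty_iff_forall_notMem]
      intro t ht
      exact hq0 ((norm_nonneg _).trans (hmq t ht))
    subst hOe
    exact ⟨differentiableOn_empty, differentiableOn_empty, fun _ => differentiableOn_empty⟩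
  have hm1 : ∀ t ∈ O, ‖m t‖ < 1 := fun t ht => lt_of_le_of_lt (hmq t ht) hq
  have hr : ∀ v, DifferentiableOn ℂ (fun t => rsv (m t) v) O := fun v =>
    drsv hC ν O m hO hd hm1 v
  have hrb : ∀ t ∈ O, ∀ v : (Fin d → ℤ) → ℝ, ‖rsv (m t) v‖ ≤ 1 / (1 - q) := by
    intro t ht v
    refine ((hC ν d (m t) (hm1 t ht)).1 v).1.trans ?_
    apply one_div_le_one_div_of_le (by linarith)
    linarith [hmq t ht]
  have hcb : ∀ t ∈ O, ‖csym ν (m t)‖ ≤ 1 / (1 - q) := by
    intro t ht
    refine ((hC ν d (m t) (hm1 t ht)).2.2).trans ?_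
    apply one_div_le_one_div_of_le (by linarith)
    linarith [hmq t ht]
  have hco : ∀ (u : l2 (Fin d → ℤ)) (x : Fin d → ℤ),
      DifferentiableOn ℂ (fun t => opr (csym ν (m t)) u x) O := by
    intro u x
    have h1 : DifferentiableOn ℂ
        (fun t => ∫ v, (dc v (rsv (m t) v u)) x ∂(Pn ν (Fin d → ℤ))) O := by
      apply dint (Pn ν (Fin d → ℤ)) O hO (1 / (1 - q) * ‖u‖)
        (fun t v => (dc v (rsv (m t) v u)) x)
      · intro t ht
        exact ((hC ν d (m t) (hm1 t ht)).2.1 u x).2.1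
      · intro t ht v
        refine (nx x _).trans ?_
        refine ((dc v).le_opNorm _).trans ?_
        refine (mul_le_mul (dcn v) ((rsv (m t) v).le_opNorm u) (norm_nonneg _)
          zero_le_one).trans ?_
        rw [one_mul]
        exact mul_le_mul_of_nonneg_right (hrb t ht v) (norm_nonneg _)
      · intro v
        have h2 : DifferentiableOn ℂ (fun t => cx x (dc v (rsv (m t) v u))) O := by
          intro t ht
          have h3 : DifferentiableWithinAt ℂ (fun t => rsv (m t) v u) O t :=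
            (hr v t ht).clm_apply (differentiableWithinAt_const u)
          exact (cx x).differentiableAt.comp_differentiableWithinAt t
            ((dc v).differentiableAt.comp_differentiableWithinAt t h3)
        refine h2.congr fun t _ => ?_
        rw [cx_apply]
    refine h1.congr fun t ht => ?_
    exact (((hC ν d (m t) (hm1 t ht)).2.1 u x).2.2.1).symm
  have hcs : DifferentiableOn ℂ (fun t => csym ν (m t)) O := by
    let L : (l2 (Fin d → ℤ)) → (l2 (Fin d → ℤ)) → (C(UnitAddTorus (Fin d), ℂ) →L[ℂ] ℂ) :=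
      fun w u => (innerSL ℂ w).comp
        ((ContinuousLinearMap.apply ℂ (l2 (Fin d → ℤ)) u).comp (oprL d))
    have hL : ∀ w u C, L w u C = inner ℂ w (opr C u) := fun w u C => rfl
    apply hH (C(UnitAddTorus (Fin d), ℂ))
      {l | ∃ (s : Finset (Fin d → ℤ)) (a : (Fin d → ℤ) → ℂ) (u : l2 (Fin d → ℤ)),
        ‖∑ x ∈ s, a x • dl x‖ ≤ 1 ∧ ‖u‖ ≤ 1 ∧ l = L (∑ x ∈ s, a x • dl x) u}
      O _ (1 / (1 - q)) hO
    · rintro l ⟨s, a, u, hw, hu, rfl⟩
      apply ContinuousLinearMap.opNorm_le_bound _ zero_le_one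
      intro C
      rw [hL, one_mul]
      refine (norm_inner_le_norm _ _).trans ?_
      refine (mul_le_mul hw ((opr C).le_opNorm u) (norm_nonneg _) zero_le_one).trans ?_
      rw [one_mul]
      refine (mul_le_mul (Pool.Agent.W918.LL.main d C C).2.1 hu (norm_nonneg _)
        (norm_nonneg _)).trans ?_
      rw [mul_one]
    · intro C c hc hl
      rw [← (hY d).2.1 C]
      refine ContinuousLinearMap.opNorm_le_bound' _ hc ?_
      intro u hu0
      have hupos : 0 < ‖u‖ := lt_of_le_of_ne (norm_nonneg _) (Ne.symm hu0)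
      have h1 : ‖opr C (((‖u‖⁻¹ : ℝ) : ℂ) • u)‖ ≤ c := by
        apply norming _ c hc
        intro s a hw
        have h2 := hl (L (∑ x ∈ s, a x • dl x) (((‖u‖⁻¹ : ℝ) : ℂ) • u))
          ⟨s, a, _, hw, by
            rw [norm_smul, Complex.norm_real, Real.norm_of_nonneg (by positivity),
              inv_mul_cancel₀ hu0], rfl⟩
        rwa [hL] at h2
      rw [map_smul, norm_smul, Complex.norm_real, Real.norm_of_nonneg (by positivity),
        inv_mul_le_iff₀ hupos] at h1
      linarith [mul_comm ‖u‖ c]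
    · exact hcb
    · rintro l ⟨s, a, u, hw, hu, rfl⟩
      have h1 : ∀ t, L (∑ x ∈ s, a x • dl x) u (csym ν (m t))
          = ∑ x ∈ s, (starRingEnd ℂ) (a x) * opr (csym ν (m t)) u x := by
        intro t
        rw [hL, sum_inner]
        refine Finset.sum_congr rfl fun x _ => ?_
        rw [inner_smul_left]
        have := cx_apply x (opr (csym ν (m t)) u)
        unfold cx at this
        rw [innerSL_apply_apply] at this
        rw [this]
      simp only [h1]
      exact DifferentiableOn.fun_sum fun x _ => (hco u x).const_mul _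
  refine ⟨hcs, ?_, ?_⟩
  · have hev : ∀ (f : ℂ → C(UnitAddTorus (Fin d), ℂ)), DifferentiableOn ℂ f O →
        ∀ k, DifferentiableOn ℂ (fun t => f t k) O := by
      intro f hf k t ht
      exact (ContinuousMap.evalCLM ℂ k).differentiableAt.comp_differentiableWithinAt t (hf t ht)
    apply hH (C(UnitAddTorus (Fin d), ℂ))
      {l | ∃ k, l = ContinuousMap.evalCLM ℂ k} O _ 1 hO
    · rintro l ⟨k, rfl⟩
      apply ContinuousLinearMap.opNorm_le_bound _ zero_le_one
      intro C
      rw [one_mul]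
      exact C.norm_coe_le_norm k
    · intro C c hc hl
      rw [ContinuousMap.norm_le _ hc]
      intro k
      exact hl _ ⟨k, rfl⟩
    · intro t ht
      rw [ContinuousMap.norm_le _ zero_le_one]
      intro k
      exact ((hP ν d q (m t) (m t) hq0 hq (hmq t ht) (hmq t ht)).1 k).2.2.1
    · rintro l ⟨k, rfl⟩
      have h1 : ∀ t ∈ O, (ContinuousMap.evalCLM ℂ k) (psi ν (m t))
          = csym ν (m t) k / (1 + m t k * csym ν (m t) k) := by
        intro t ht
        exact ((hP ν d q (m t) (m t) hq0 hq (hmq t ht) (hmq t ht)).1 k).2.1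
      refine DifferentiableOn.congr ?_ h1
      refine (hev _ hcs k).div (((hev _ hd k).mul (hev _ hcs k)).const_add 1) ?_
      intro t ht
      exact ((hP ν d q (m t) (m t) hq0 hq (hmq t ht) (hmq t ht)).1 k).1
  · intro v
    have h1 : ∀ t, Zf (m t) (fun x => cay (v x)) = cx (0 : Fin d → ℤ) (rsv (m t) v (dl 0)) := by
      intro t
      rw [cx_apply]
      rfl
    simp only [h1]
    intro t ht
    have h3 : DifferentiableWithinAt ℂ (fun t => rsv (m t) v (dl 0)) O t :=
      (hr v t ht).clm_apply (differentiableWithinAt_const _)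
    exact (cx (0 : Fin d → ℤ)).differentiableAt.comp_differentiableWithinAt t h3

end

end Pool.Agent.W636.WAHolc
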